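import Pool.Agent.Lib.MP_6ff8d9_an.Base2

/-! Pointwise inequalities behind the recovery sequence. -/

open Metric Filter Topology

namespace Pool.Agent.Lib.MP_6ff8d9_an

namespace Rec

noncomputable section

open scoped ComplexConjugate

lemma normSq_one_sub (w : ℂ) : ‖1 - w‖ ^ 2 = (1 - w.re) ^ 2 + w.im ^ 2 := by
  rw [← Complex.normSq_eq_norm_sq, Complex.normSq_apply]
  simp only [Complex.sub_re, Complex.one_re, Complex.sub_im, Complex.one_im]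
  ring

lemma normSq_w (w : ℂ) : ‖w‖ ^ 2 = w.re ^ 2 + w.im ^ 2 := by
  rw [← Complex.normSq_eq_norm_sq, Complex.normSq_apply]
  ring

lemma core_identity (A B w K0 K1 : ℂ) (m : ℝ) (hm : m ≠ 0) (hw : w ≠ 1) :
    m * ‖1 - w‖ ^ 2 * (A + w / (1 - w) * (A + conj B - 2 / m * K0) + 2 / m * K1 * w).re
      = m * ((A - B) * (1 - conj w)).re + m * (1 - ‖w‖ ^ 2) * B.re
        - 2 * (K0 * (w * (1 - conj w))).re + 2 * ‖1 - w‖ ^ 2 * (K1 * w).re := by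
  have hne : (1 : ℂ) - w ≠ 0 := sub_ne_zero.2 (Ne.symm hw)
  have hn2 : ((‖1 - w‖ ^ 2 : ℝ) : ℂ) = (1 - w) * (1 - conj w) := by
    rw [← Complex.normSq_eq_norm_sq, ← Complex.mul_conj]
    simp
  have hmC : (m : ℂ) ≠ 0 := by exact_mod_cast hm
  have h1 : ((m * ‖1 - w‖ ^ 2 : ℝ) : ℂ) *
      (A + w / (1 - w) * (A + conj B - 2 / m * K0) + 2 / m * K1 * w)
      = (m : ℂ) * ((‖1 - w‖ ^ 2 : ℝ) : ℂ) * A + m * (w * (1 - conj w)) * (A + conj B)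
        - 2 * (K0 * (w * (1 - conj w))) + 2 * ((‖1 - w‖ ^ 2 : ℝ) : ℂ) * (K1 * w) := by
    have : ((m * ‖1 - w‖ ^ 2 : ℝ) : ℂ) = m * ((‖1 - w‖ ^ 2 : ℝ) : ℂ) := by push_cast; ring
    rw [this, hn2]
    field_simp
    ring
  have h2 := congrArg Complex.re h1
  rw [Complex.re_ofReal_mul] at h2
  rw [h2]
  have hn3 : (((‖1 - w‖ ^ 2 : ℝ) : ℂ)).re = ‖1 - w‖ ^ 2 := Complex.ofReal_re _
  simp only [Complex.add_re, Complex.sub_re, Complex.mul_re, Complex.ofReal_re, Complex.ofReal_im,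
    Complex.mul_im, Complex.sub_im, Complex.add_im, Complex.one_re, Complex.one_im, Complex.conj_re,
    Complex.conj_im, Complex.re_ofNat, Complex.im_ofNat]
  rw [normSq_one_sub, normSq_w]
  ring

lemma a_le_two {w : ℂ} (hw : ‖w‖ < 1) : ‖1 - w‖ ≤ 2 := by
  have := norm_sub_le (1 : ℂ) w
  rw [norm_one] at this
  linarith

lemma ne_one_of {w : ℂ} (hw : ‖w‖ < 1) : w ≠ 1 := by
  rintro rfl
  simp at hw

lemma norm_one_sub_conj (w : ℂ) : ‖1 - conj w‖ = ‖1 - w‖ := by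
  rw [← Complex.norm_conj (1 - w), map_sub, map_one]

lemma deep_pos (A B w K0 K1 : ℂ) {m δ b1 M : ℝ} (hm : 0 < m) (hw : ‖w‖ < 1)
    (hδ : 0 < δ) (hb1 : 0 < b1)
    (hAB : ‖A - B‖ ≤ b1 * δ / 8) (hB : δ / 2 ≤ B.re) (hb : b1 ≤ 1 - ‖w‖ ^ 2) (hK0 : ‖K0‖ ≤ M)
    (hK1 : ‖K1‖ ≤ M) (hmM : 12 * M ≤ m * (b1 * δ / 4)) :
    0 ≤ (A + w / (1 - w) * (A + conj B - 2 / m * K0) + 2 / m * K1 * w).re := by
  have hid := core_identity A B w K0 K1 m hm.ne' (ne_one_of hw)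
  have ha2 := a_le_two hw
  have ha0 : 0 < ‖1 - w‖ := norm_pos_iff.2 (sub_ne_zero.2 (Ne.symm (ne_one_of hw)))
  have hM : 0 ≤ M := (norm_nonneg _).trans hK0
  have e1 : -(b1 * δ / 4) ≤ ((A - B) * (1 - conj w)).re := by
    have := Complex.abs_re_le_norm ((A - B) * (1 - conj w))
    rw [norm_mul, norm_one_sub_conj] at this
    have h2 : ‖A - B‖ * ‖1 - w‖ ≤ (b1 * δ / 8) * 2 :=
      mul_le_mul hAB ha2 (norm_nonneg _) (by positivity)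
    have := (abs_le.1 this).1
    linarith
  have e2 : (K0 * (w * (1 - conj w))).re ≤ 2 * M := by
    have := (Complex.abs_re_le_norm (K0 * (w * (1 - conj w))))
    rw [norm_mul, norm_mul, norm_one_sub_conj] at this
    have h2 : ‖K0‖ * (‖w‖ * ‖1 - w‖) ≤ M * (1 * 2) :=
      mul_le_mul hK0 (mul_le_mul hw.le ha2 (norm_nonneg _) (by norm_num)) (by positivity) hM
    have := (abs_le.1 this).2
    linarith
  have e3 : -M ≤ (K1 * w).re := by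
    have := (Complex.abs_re_le_norm (K1 * w))
    rw [norm_mul] at this
    have h2 : ‖K1‖ * ‖w‖ ≤ M * 1 := mul_le_mul hK1 hw.le (norm_nonneg _) hM
    have := (abs_le.1 this).1
    linarith
  have e4 : -(4 * M) ≤ ‖1 - w‖ ^ 2 * (K1 * w).re := by
    have h4 : ‖1 - w‖ ^ 2 ≤ 4 := by nlinarith [norm_nonneg (1 - w)]
    nlinarith [sq_nonneg ‖1 - w‖]
  have e5 : m * (b1 * δ / 2) ≤ m * (1 - ‖w‖ ^ 2) * B.re := by
    have : b1 * (δ / 2) ≤ (1 - ‖w‖ ^ 2) * B.re :=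
      mul_le_mul hb hB (by positivity) (hb1.le.trans hb)
    nlinarith
  have e6 : -(m * (b1 * δ / 4)) ≤ m * ((A - B) * (1 - conj w)).re := by nlinarith
  have hpos : 0 ≤ m * ‖1 - w‖ ^ 2 * (A + w / (1 - w) * (A + conj B - 2 / m * K0) + 2 / m * K1 * w).re := by
    rw [hid]
    nlinarith
  have hma : 0 < m * ‖1 - w‖ ^ 2 := by positivity
  by_contra hneg
  push Not at hneg
  nlinarith

lemma sq_one_sub_conj (w : ℂ) : (1 - conj w) ^ 2 =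
    -(conj w) * ((‖1 - w‖ ^ 2 : ℝ) : ℂ) + (1 - conj w) * ((1 - ‖w‖ ^ 2 : ℝ) : ℂ) := by
  have hn2 : ((‖1 - w‖ ^ 2 : ℝ) : ℂ) = (1 - w) * (1 - conj w) := by
    rw [← Complex.normSq_eq_norm_sq, ← Complex.mul_conj]
    simp
  have hn3 : ((1 - ‖w‖ ^ 2 : ℝ) : ℂ) = 1 - w * conj w := by
    rw [Complex.mul_conj, Complex.normSq_eq_norm_sq]
    push_cast
    ring
  rw [hn2, hn3]
  ring

lemma re_sq_eq (d : ℂ) : d.re ^ 2 = (‖d‖ ^ 2 + (d ^ 2).re) / 2 := by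
  rw [normSq_w, pow_two d, Complex.mul_re]
  ring

/-- the quadratic form bound: `∑ (Re (D_j (1 - w̄)))² ≤ …` -/
lemma G_sq {n : ℕ} (Dv : Fin n → ℂ) (w : ℂ) :
    ∑ j, ((Dv j * (1 - conj w)).re) ^ 2 =
      (‖1 - w‖ ^ 2 * ((∑ j, ‖Dv j‖ ^ 2) - (w * conj (∑ j, Dv j ^ 2)).re)
        + (1 - ‖w‖ ^ 2) * ((∑ j, Dv j ^ 2) * (1 - conj w)).re) / 2 := by
  have h1 : ∀ j, ((Dv j * (1 - conj w)).re) ^ 2 =
      (‖1 - w‖ ^ 2 * ‖Dv j‖ ^ 2 + (Dv j ^ 2 * (1 - conj w) ^ 2).re) / 2 := by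
    intro j
    rw [re_sq_eq, norm_mul, norm_one_sub_conj, mul_pow, mul_pow]
    ring
  simp_rw [h1]
  rw [← Finset.sum_div, Finset.sum_add_distrib, ← Finset.mul_sum]
  have h2 : ∑ j, (Dv j ^ 2 * (1 - conj w) ^ 2).re = ((∑ j, Dv j ^ 2) * (1 - conj w) ^ 2).re := by
    rw [Finset.sum_mul, Complex.re_sum]
  rw [h2, sq_one_sub_conj]
  generalize (∑ j, Dv j ^ 2) = N
  generalize ‖1 - w‖ ^ 2 = a2
  generalize (∑ j, ‖Dv j‖ ^ 2) = N0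
  generalize ‖w‖ ^ 2 = w2
  simp only [Complex.add_re, Complex.sub_re, Complex.mul_re, Complex.ofReal_re, Complex.ofReal_im,
    Complex.mul_im, Complex.sub_im, Complex.add_im, Complex.one_re, Complex.one_im, Complex.conj_re,
    Complex.conj_im, Complex.neg_re, Complex.neg_im]
  ring

lemma T_low {m X u μ b k a M1 T G2 : ℝ} (hm : 0 < m) (hu0 : 0 < u) (hμ : 0 < μ) (hμ4 : μ ≤ 1 / 4)
    (hG0 : 0 ≤ G2) (hCS : T ^ 2 ≤ X ^ 2 * G2) (hmX : m * X ^ 2 ≤ (1 + μ) * b / 2)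
    (hGle : G2 ≤ 2 * a ^ 2 * u * k + b * M1) :
    -((1 - μ) * u * m * b) - (1 + 4 * μ) * (a ^ 2 * k + b * M1 / (2 * u)) ≤ 2 * m * T := by
  -- s = 2u(1-μ)/(1+μ)
  have h1μ : 0 < 1 - μ := by linarith
  have h2μ : 0 < 1 + μ := by linarith
  obtain ⟨s, hs⟩ : ∃ s, s = 2 * u * (1 - μ) / (1 + μ) := ⟨_, rfl⟩
  have hs0 : 0 < s := by rw [hs]; positivity
  have h1 : (m * T) ^ 2 ≤ (m ^ 2 * X ^ 2) * G2 := by
    have := mul_le_mul_of_nonneg_left hCS (sq_nonneg m)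
    calc (m * T) ^ 2 = m ^ 2 * T ^ 2 := by ring
      _ ≤ m ^ 2 * (X ^ 2 * G2) := this
      _ = _ := by ring
  have h2 : -(s * (m ^ 2 * X ^ 2) + G2 / s) ≤ 2 * (m * T) := by
    have h4 : 4 * ((s * (m ^ 2 * X ^ 2)) * (G2 / s)) = 4 * ((m ^ 2 * X ^ 2) * G2) := by
      field_simp
    have h3 : (2 * (m * T)) ^ 2 ≤ (s * (m ^ 2 * X ^ 2) + G2 / s) ^ 2 := by
      have h5 := sq_nonneg (s * (m ^ 2 * X ^ 2) - G2 / s)
      have h6 : (s * (m ^ 2 * X ^ 2) + G2 / s) ^ 2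
          = (s * (m ^ 2 * X ^ 2) - G2 / s) ^ 2 + 4 * ((s * (m ^ 2 * X ^ 2)) * (G2 / s)) := by ring
      have h7 : (2 * (m * T)) ^ 2 = 4 * (m * T) ^ 2 := by ring
      linarith
    exact (abs_le.1 (abs_le_of_sq_le_sq h3 (by positivity))).1
  have h5 : s * (m ^ 2 * X ^ 2) ≤ (1 - μ) * u * m * b := by
    have h6 : m ^ 2 * X ^ 2 ≤ m * ((1 + μ) * b / 2) := by
      have := mul_le_mul_of_nonneg_left hmX hm.le
      calc m ^ 2 * X ^ 2 = m * (m * X ^ 2) := by ring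
        _ ≤ _ := this
    have h7 : s * (m * ((1 + μ) * b / 2)) = (1 - μ) * u * m * b := by
      rw [hs]
      field_simp
    have := mul_le_mul_of_nonneg_left h6 hs0.le
    linarith
  have h8 : G2 / s ≤ (1 + 4 * μ) * (a ^ 2 * k + b * M1 / (2 * u)) := by
    have h9 : G2 / s = (1 + μ) / (1 - μ) * (G2 / (2 * u)) := by
      rw [hs]
      field_simp
    have h10 : G2 / (2 * u) ≤ a ^ 2 * k + b * M1 / (2 * u) := by
      rw [div_le_iff₀ (by positivity)]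
      have : (a ^ 2 * k + b * M1 / (2 * u)) * (2 * u) = 2 * a ^ 2 * u * k + b * M1 := by
        field_simp
      rw [this]
      exact hGle
    have h11 : (1 + μ) / (1 - μ) ≤ 1 + 4 * μ := by
      rw [div_le_iff₀ h1μ]
      nlinarith
    have h12 : 0 ≤ G2 / (2 * u) := by positivity
    rw [h9]
    exact mul_le_mul h11 h10 h12 (by linarith)
  linarith

lemma final_sum {m a b t X u δ μ k k0 kr ε kmax C1 C2 C3 M0 M1 M2 T RA RB R0 R1 : ℝ}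
    (hm1 : 1 ≤ m) (ha0 : 0 < a) (hb0 : 0 < b) (hX : 0 ≤ X) (hX1 : X ≤ 1)
    (hδ : 0 < δ) (hu : δ ≤ u) (hμ : 0 < μ) (hμ4 : μ ≤ 1 / 4) (hC1 : 0 ≤ C1)
    (hε : 0 < ε) (hk0 : |k0| ≤ M0) (hM1 : 0 ≤ M1) (hM2 : 0 ≤ M2)
    (hmX : m * X ^ 2 ≤ b) (ht : t ≤ b)
    (hk : k + ε ≤ k0 + kr) (hkmax : k ≤ kmax) (hμk : 4 * μ * kmax ≤ ε / 2)
    (hXs : C2 * X ≤ μ * δ / 2)
    (hms : M1 / δ + M0 + 2 * C1 + 4 * M2 + 18 * C3 ^ 2 / ε ≤ μ * δ / 2 * m)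
    (hT : -((1 - μ) * u * m * b) - (1 + 4 * μ) * (a ^ 2 * k + b * M1 / (2 * u)) ≤ 2 * m * T)
    (hA : 2 * T - 4 * (t / m) * M2 - 2 * C1 * X ^ 3 ≤ RA)
    (hR0 : 2 * R0 ≤ k0 * (b - a ^ 2) + 2 * C3 * X * a)
    (hR1 : a ^ 2 * kr - 4 * C3 * X * a ≤ 2 * a ^ 2 * R1)
    (hRB : m * b * (u - C2 * X) ≤ m * b * RB) :
    0 ≤ m * RA + m * b * RB - 2 * R0 + 2 * a ^ 2 * R1 := by
  have hm : 0 < m := by linarith
  have hu0 : 0 < u := by linarith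
  have hX3 : X ^ 3 ≤ X ^ 2 := pow_le_pow_of_le_one hX hX1 (by norm_num)
  have g1 : m * (2 * C1 * X ^ 3) ≤ 2 * C1 * b := by
    have h0 : m * X ^ 3 ≤ b := (mul_le_mul_of_nonneg_left hX3 hm.le).trans hmX
    calc m * (2 * C1 * X ^ 3) = 2 * C1 * (m * X ^ 3) := by ring
      _ ≤ 2 * C1 * b := by gcongr
  have g2 : m * (4 * (t / m) * M2) ≤ 4 * M2 * b := by
    have : m * (4 * (t / m) * M2) = 4 * M2 * t := by field_simp
    rw [this]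
    gcongr
  have g3 : 6 * C3 * X * a ≤ ε / 2 * a ^ 2 + 18 * C3 ^ 2 / ε * b := by
    have h1 : X ^ 2 ≤ b := by
      refine le_trans ?_ hmX
      have := sq_nonneg X
      nlinarith
    have h2 : 6 * C3 * X * a ≤ ε / 2 * a ^ 2 + 18 * C3 ^ 2 / ε * X ^ 2 := by
      have h3 : 0 ≤ (ε * a - 6 * C3 * X) ^ 2 / (2 * ε) := by positivity
      have h4 : (ε * a - 6 * C3 * X) ^ 2 / (2 * ε)
          = ε / 2 * a ^ 2 - 6 * C3 * X * a + 18 * C3 ^ 2 / ε * X ^ 2 := by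
        field_simp
        ring
      linarith
    have h5 : 18 * C3 ^ 2 / ε * X ^ 2 ≤ 18 * C3 ^ 2 / ε * b := by gcongr
    linarith
  have g4 : (1 + 4 * μ) * (b * M1 / (2 * u)) ≤ M1 / δ * b := by
    have h1 : b * M1 / (2 * u) ≤ b * M1 / (2 * δ) := by gcongr
    have h2 : 0 ≤ b * M1 / (2 * u) := by positivity
    have h3 : (1 + 4 * μ) * (b * M1 / (2 * u)) ≤ 2 * (b * M1 / (2 * δ)) :=
      mul_le_mul (by linarith) h1 h2 (by norm_num)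
    have h4 : 2 * (b * M1 / (2 * δ)) = M1 / δ * b := by field_simp
    linarith
  have g5 : k0 * b ≤ M0 * b := by
    have := (abs_le.1 hk0).2
    gcongr
  have g6 : a ^ 2 * (k + ε) ≤ a ^ 2 * (k0 + kr) := by gcongr
  have g7 : 4 * μ * k * a ^ 2 ≤ ε / 2 * a ^ 2 := by
    have h1 : 4 * μ * k ≤ ε / 2 := by
      have : 4 * μ * k ≤ 4 * μ * kmax := by gcongr
      linarith
    gcongr
  have g8 : b * (M1 / δ + M0 + 2 * C1 + 4 * M2 + 18 * C3 ^ 2 / ε) ≤ b * (μ * δ / 2 * m) := by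
    gcongr
  have g9 : m * b * (C2 * X) ≤ m * b * (μ * δ / 2) := by gcongr
  have g10 : μ * δ * (m * b) ≤ μ * u * (m * b) := by gcongr
  have g11 : m * (2 * T - 4 * (t / m) * M2 - 2 * C1 * X ^ 3) ≤ m * RA := by
    gcongr
  have g12 : m * (2 * T - 4 * (t / m) * M2 - 2 * C1 * X ^ 3)
      = 2 * m * T - m * (4 * (t / m) * M2) - m * (2 * C1 * X ^ 3) := by ring
  have g13 : (1 + 4 * μ) * (a ^ 2 * k + b * M1 / (2 * u))
      = a ^ 2 * k + 4 * μ * k * a ^ 2 + (1 + 4 * μ) * (b * M1 / (2 * u)) := by ring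
  rw [g12] at g11
  rw [g13] at hT
  have g14 : (1 - μ) * u * m * b = m * b * u - μ * u * (m * b) := by ring
  rw [g14] at hT
  have g15 : m * b * (u - C2 * X) = m * b * u - m * b * (C2 * X) := by ring
  rw [g15] at hRB
  have g16 : b * (M1 / δ + M0 + 2 * C1 + 4 * M2 + 18 * C3 ^ 2 / ε)
      = M1 / δ * b + M0 * b + 2 * C1 * b + 4 * M2 * b + 18 * C3 ^ 2 / ε * b := by ring
  rw [g16] at g8
  have g17 : b * (μ * δ / 2 * m) = μ * δ * (m * b) / 2 := by ring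
  rw [g17] at g8
  have g18 : m * b * (μ * δ / 2) = μ * δ * (m * b) / 2 := by ring
  rw [g18] at g9
  have g19 : k0 * (b - a ^ 2) = k0 * b - k0 * a ^ 2 := by ring
  rw [g19] at hR0
  have g20 : a ^ 2 * (k + ε) = a ^ 2 * k + ε / 2 * a ^ 2 + ε / 2 * a ^ 2 := by ring
  rw [g20] at g6
  have g21 : a ^ 2 * (k0 + kr) = k0 * a ^ 2 + a ^ 2 * kr := by ring
  rw [g21] at g6
  clear g12 g13 g14 g15 g16 g17 g18 g19 g20 g21 hXs hms hμk hkmax hk hmX ht hA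
  linarith

lemma AB_low (A B w S Dm : ℂ) {q C1 X M2 : ℝ} (hw : ‖w‖ < 1) (hC1 : 0 ≤ C1) (hX : 0 ≤ X)
    (hq : 0 ≤ q) (hDm : ‖Dm‖ ≤ M2)
    (hAB : ‖A - B - 2 * (S - Dm * (q : ℂ))‖ ≤ C1 * X ^ 3) :
    2 * (S * (1 - conj w)).re - 4 * q * M2 - 2 * C1 * X ^ 3 ≤ ((A - B) * (1 - conj w)).re := by
  have ha2 := a_le_two hw
  have h1 : (A - B) * (1 - conj w) = ((2 : ℝ) : ℂ) * (S * (1 - conj w))
      - 2 * (Dm * (q : ℂ) * (1 - conj w))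
      + (A - B - 2 * (S - Dm * (q : ℂ))) * (1 - conj w) := by
    push_cast
    ring
  rw [h1, Complex.add_re, Complex.sub_re, Complex.re_ofReal_mul]
  have h3 : (2 * (Dm * (q : ℂ) * (1 - conj w))).re ≤ 4 * q * M2 := by
    have h4 := (abs_le.1 (Complex.abs_re_le_norm (2 * (Dm * (q : ℂ) * (1 - conj w))))).2
    rw [norm_mul, norm_mul, norm_mul, norm_one_sub_conj, Complex.norm_real,
      Real.norm_of_nonneg hq] at h4
    have h5 : ‖Dm‖ * q * ‖1 - w‖ ≤ M2 * q * 2 := by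
      have hM2 : 0 ≤ M2 := (norm_nonneg _).trans hDm
      gcongr
    simp only [Complex.norm_ofNat] at h4
    linarith
  have h6 : -(2 * C1 * X ^ 3) ≤ ((A - B - 2 * (S - Dm * (q : ℂ))) * (1 - conj w)).re := by
    have h4 := (abs_le.1 (Complex.abs_re_le_norm ((A - B - 2 * (S - Dm * (q : ℂ))) * (1 - conj w)))).1
    rw [norm_mul, norm_one_sub_conj] at h4
    have h5 := mul_le_mul hAB ha2 (norm_nonneg _) (by positivity)
    linarith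
  linarith

lemma K0_term (K0 w : ℂ) {k0 C3 X : ℝ} (hw : ‖w‖ < 1) (hK0 : ‖K0 - (k0 : ℂ)‖ ≤ C3 * X)
    (h : 0 ≤ C3 * X) :
    2 * (K0 * (w * (1 - conj w))).re
      ≤ k0 * ((1 - ‖w‖ ^ 2) - ‖1 - w‖ ^ 2) + 2 * C3 * X * ‖1 - w‖ := by
  have h1 : K0 * (w * (1 - conj w)) = (k0 : ℂ) * (w * (1 - conj w))
      + (K0 - k0) * (w * (1 - conj w)) := by ring
  rw [h1, Complex.add_re, Complex.re_ofReal_mul]
  have h2 : 2 * (w * (1 - conj w)).re = (1 - ‖w‖ ^ 2) - ‖1 - w‖ ^ 2 := by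
    rw [normSq_one_sub, normSq_w]
    simp only [Complex.sub_re, Complex.mul_re, Complex.sub_im, Complex.one_re, Complex.one_im,
      Complex.conj_re, Complex.conj_im]
    ring
  have h3 : ((K0 - k0) * (w * (1 - conj w))).re ≤ C3 * X * ‖1 - w‖ := by
    have h4 := (abs_le.1 (Complex.abs_re_le_norm ((K0 - k0) * (w * (1 - conj w))))).2
    rw [norm_mul, norm_mul, norm_one_sub_conj] at h4
    have h5 : ‖K0 - (k0 : ℂ)‖ * (‖w‖ * ‖1 - w‖) ≤ C3 * X * (1 * ‖1 - w‖) := by gcongr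
    linarith
  have h6 : 2 * (k0 * (w * (1 - conj w)).re) = k0 * ((1 - ‖w‖ ^ 2) - ‖1 - w‖ ^ 2) := by
    rw [← h2]; ring
  linarith

lemma K1_term (K1 k1 w : ℂ) {C3 X : ℝ} (hw : ‖w‖ < 1) (hK1 : ‖K1 - k1‖ ≤ C3 * X)
    (h : 0 ≤ C3 * X) :
    ‖1 - w‖ ^ 2 * (2 * (k1 * w).re) - 4 * C3 * X * ‖1 - w‖ ≤ 2 * ‖1 - w‖ ^ 2 * (K1 * w).re := by
  have ha2 := a_le_two hw
  have h1 : K1 * w = k1 * w + (K1 - k1) * w := by ring
  rw [h1, Complex.add_re]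
  have h4 := (abs_le.1 (Complex.abs_re_le_norm ((K1 - k1) * w))).1
  rw [norm_mul] at h4
  have h5 : ‖K1 - k1‖ * ‖w‖ ≤ C3 * X * 1 := by gcongr
  have h6 : -(C3 * X) ≤ ((K1 - k1) * w).re := by linarith
  generalize ((K1 - k1) * w).re = y at h6
  generalize (k1 * w).re = z
  have ha0 : 0 ≤ ‖1 - w‖ := norm_nonneg _
  generalize ‖1 - w‖ = a at ha2 ha0
  have h7 : a ^ 2 ≤ 2 * a := by nlinarith
  have h10 : a ^ 2 * (-(C3 * X)) ≤ a ^ 2 * y := by gcongr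
  have h11 : a ^ 2 * (C3 * X) ≤ 2 * a * (C3 * X) := by gcongr
  have h12 : 4 * C3 * X * a = 2 * (2 * a * (C3 * X)) := by ring
  have h13 : 2 * a ^ 2 * (z + y) = a ^ 2 * (2 * z) + 2 * (a ^ 2 * y) := by ring
  rw [h12, h13]
  have h14 : a ^ 2 * (-(C3 * X)) = -(a ^ 2 * (C3 * X)) := by ring
  rw [h14] at h10
  linarith

lemma G_le {n : ℕ} (Dv : Fin n → ℂ) (w : ℂ) {u M1 : ℝ} (hu : 0 < u) (hw : ‖w‖ < 1)
    (hN1 : ‖∑ j, Dv j ^ 2‖ ≤ M1) :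
    ∑ j, ((Dv j * (1 - conj w)).re) ^ 2 ≤
      2 * ‖1 - w‖ ^ 2 * u * (((∑ j, ‖Dv j‖ ^ 2) - (w * conj (∑ j, Dv j ^ 2)).re) / (4 * u))
        + (1 - ‖w‖ ^ 2) * M1 := by
  have ha2 := a_le_two hw
  have hM1 : 0 ≤ M1 := (norm_nonneg _).trans hN1
  have hb0 : 0 ≤ 1 - ‖w‖ ^ 2 := by
    have := norm_nonneg w
    nlinarith
  have hN1a : ((∑ j, Dv j ^ 2) * (1 - conj w)).re ≤ 2 * M1 := by
    have h1 := (abs_le.1 (Complex.abs_re_le_norm ((∑ j, Dv j ^ 2) * (1 - conj w)))).2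
    rw [norm_mul, norm_one_sub_conj] at h1
    have : ‖∑ j, Dv j ^ 2‖ * ‖1 - w‖ ≤ M1 * 2 := mul_le_mul hN1 ha2 (norm_nonneg _) hM1
    linarith
  rw [G_sq]
  generalize ((∑ j, ‖Dv j‖ ^ 2) - (w * conj (∑ j, Dv j ^ 2)).re) = q
  have h1 : (1 - ‖w‖ ^ 2) * ((∑ j, Dv j ^ 2) * (1 - conj w)).re ≤ (1 - ‖w‖ ^ 2) * (2 * M1) := by
    gcongr
  have h2 : 2 * ‖1 - w‖ ^ 2 * u * (q / (4 * u)) = ‖1 - w‖ ^ 2 * q / 2 := by
    field_simp
    ring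
  rw [h2]
  linarith

/-- the main inequality near the torus -/
lemma core_pos {n : ℕ} (A B w K0 K1 k1 Dm : ℂ) {m X t u δ μ k0 ε kmax C1 C2 C3 M0 M1 M2 : ℝ}
    (x : Fin n → ℝ) (Dv : Fin n → ℂ)
    (hm1 : 1 ≤ m) (hX : 0 ≤ X) (hX1 : X ≤ 1) (hxX : ∑ j, x j ^ 2 = X ^ 2) (hw : ‖w‖ < 1)
    (hδ : 0 < δ) (hu : δ ≤ u) (hμ : 0 < μ) (hμ4 : μ ≤ 1 / 4) (hC1 : 0 ≤ C1)
    (hC3 : 0 ≤ C3) (hε : 0 < ε)
    (hAB : ‖A - B - 2 * ((∑ j, (x j : ℂ) * Dv j) - Dm * ((t / m : ℝ) : ℂ))‖ ≤ C1 * X ^ 3)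
    (hB : |B.re - u| ≤ C2 * X)
    (hK0 : ‖K0 - (k0 : ℂ)‖ ≤ C3 * X) (hK1 : ‖K1 - k1‖ ≤ C3 * X)
    (hk0 : |k0| ≤ M0) (hN1 : ‖∑ j, Dv j ^ 2‖ ≤ M1) (hDm : ‖Dm‖ ≤ M2)
    (hmX : m * X ^ 2 ≤ (1 + μ) * (1 - ‖w‖ ^ 2) / 2) (ht0 : 0 ≤ t) (ht : t ≤ 1 - ‖w‖ ^ 2)
    (hk : ((∑ j, ‖Dv j‖ ^ 2) - (w * conj (∑ j, Dv j ^ 2)).re) / (4 * u) + ε ≤ k0 + 2 * (k1 * w).re)
    (hkmax : ((∑ j, ‖Dv j‖ ^ 2) - (w * conj (∑ j, Dv j ^ 2)).re) / (4 * u) ≤ kmax)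
    (hμk : 4 * μ * kmax ≤ ε / 2)
    (hXs : C2 * X ≤ μ * δ / 2)
    (hms : M1 / δ + M0 + 2 * C1 + 4 * M2 + 18 * C3 ^ 2 / ε ≤ μ * δ / 2 * m) :
    0 ≤ (A + w / (1 - w) * (A + conj B - 2 / m * K0) + 2 / m * K1 * w).re := by
  have hm : 0 < m := by linarith
  have hid := core_identity A B w K0 K1 m hm.ne' (ne_one_of hw)
  have ha0 : 0 < ‖1 - w‖ := norm_pos_iff.2 (sub_ne_zero.2 (Ne.symm (ne_one_of hw)))
  have hu0 : 0 < u := hδ.trans_le hu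
  have hM1 : 0 ≤ M1 := (norm_nonneg _).trans hN1
  have hM2 : 0 ≤ M2 := (norm_nonneg _).trans hDm
  have hw2 : ‖w‖ ^ 2 < 1 := by
    have := norm_nonneg w
    nlinarith
  have hb0 : 0 < 1 - ‖w‖ ^ 2 := by linarith
  have hGle := G_le Dv w hu0 hw hN1
  have hG0 : 0 ≤ ∑ j, ((Dv j * (1 - conj w)).re) ^ 2 := Finset.sum_nonneg fun j _ => sq_nonneg _
  have hCS : (((∑ j, (x j : ℂ) * Dv j) * (1 - conj w)).re) ^ 2
      ≤ X ^ 2 * ∑ j, ((Dv j * (1 - conj w)).re) ^ 2 := by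
    have h1 : ((∑ j, (x j : ℂ) * Dv j) * (1 - conj w)).re
        = ∑ j, x j * (Dv j * (1 - conj w)).re := by
      rw [Finset.sum_mul, Complex.re_sum]
      refine Finset.sum_congr rfl fun j _ => ?_
      rw [mul_assoc, Complex.re_ofReal_mul]
    rw [h1, ← hxX]
    exact Finset.sum_mul_sq_le_sq_mul_sq _ _ _
  have hTlow := T_low hm hu0 hμ hμ4 hG0 hCS hmX hGle
  have hABr := AB_low A B w (∑ j, (x j : ℂ) * Dv j) Dm hw hC1 hX (by positivity : 0 ≤ t / m) hDm hAB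
  have hK0r := K0_term K0 w hw hK0 (by positivity)
  have hK1r := K1_term K1 k1 w hw hK1 (by positivity)
  have hBr : m * (1 - ‖w‖ ^ 2) * (u - C2 * X) ≤ m * (1 - ‖w‖ ^ 2) * B.re := by
    have := (abs_le.1 hB).1
    have h2 : u - C2 * X ≤ B.re := by linarith
    gcongr
  have hXb : m * X ^ 2 ≤ 1 - ‖w‖ ^ 2 := by
    refine hmX.trans ?_
    have : (1 + μ) * (1 - ‖w‖ ^ 2) ≤ 2 * (1 - ‖w‖ ^ 2) := by gcongr; linarith
    linarith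
  have hfin := final_sum hm1 ha0 hb0 hX hX1 hδ hu hμ hμ4 hC1 hε hk0 hM1 hM2 hXb ht hk hkmax hμk hXs
    hms hTlow hABr hK0r hK1r hBr
  rw [← hid] at hfin
  have hma : 0 < m * ‖1 - w‖ ^ 2 := by positivity
  exact nonneg_of_mul_nonneg_right hfin hma

end

end Rec

end Pool.Agent.Lib.MP_6ff8d9_an
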