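import Pool.Agent.Lib.MP_6ff8d9_an.Base2

/-! Laurent polynomials near the torus. -/

open Metric Filter Topology

namespace Pool.Agent.Lib.MP_6ff8d9_an

namespace Rec

noncomputable section

open scoped ComplexConjugate

variable {n : ℕ}

/-- characters of the torus -/
def ch (γ : Fin n → ℤ) (θ : Fin n → ℝ) : ℂ :=
  Complex.exp (Complex.I * ((∑ j, (γ j : ℝ) * θ j : ℝ) : ℂ))

/-- `γ · x` -/
def dt (γ : Fin n → ℤ) (x : Fin n → ℝ) : ℝ := ∑ j, (γ j : ℝ) * x j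

/-- the box of exponents -/
def Box (n D : ℕ) : Finset (Fin n → ℤ) := Fintype.piFinset (fun _ => Finset.Icc (-(D : ℤ)) D)

lemma mem_Box {D : ℕ} {γ : Fin n → ℤ} : γ ∈ Box n D ↔ ∀ j, |γ j| ≤ D := by
  simp [Box, Fintype.mem_piFinset, abs_le]

lemma ch_add (γ γ' : Fin n → ℤ) (θ : Fin n → ℝ) : ch (γ + γ') θ = ch γ θ * ch γ' θ := by
  unfold ch
  rw [← Complex.exp_add]
  congr 1
  rw [← mul_add, ← Complex.ofReal_add, ← Finset.sum_add_distrib]
  congr 2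
  refine Finset.sum_congr rfl fun j _ => ?_
  simp only [Pi.add_apply]
  push_cast
  ring

lemma ch_zero (θ : Fin n → ℝ) : ch (0 : Fin n → ℤ) θ = 1 := by
  simp [ch]

lemma norm_ch (γ : Fin n → ℤ) (θ : Fin n → ℝ) : ‖ch γ θ‖ = 1 := by
  unfold ch
  rw [mul_comm]
  exact Complex.norm_exp_ofReal_mul_I _

lemma ch_neg (γ : Fin n → ℤ) (θ : Fin n → ℝ) : ch (-γ) θ = conj (ch γ θ) := by
  unfold ch
  rw [← Complex.exp_conj]
  congr 1
  simp only [map_mul, Complex.conj_I, Complex.conj_ofReal]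
  have : (∑ j, (((-γ) j : ℤ) : ℝ) * θ j) = -∑ j, (γ j : ℝ) * θ j := by
    rw [← Finset.sum_neg_distrib]
    refine Finset.sum_congr rfl fun j _ => ?_
    simp only [Pi.neg_apply]
    push_cast
    ring
  rw [this]
  push_cast
  ring

lemma dt_neg (γ : Fin n → ℤ) (x : Fin n → ℝ) : dt (-γ) x = -dt γ x := by
  unfold dt
  rw [← Finset.sum_neg_distrib]
  refine Finset.sum_congr rfl fun j _ => ?_
  simp only [Pi.neg_apply]
  push_cast
  ring

lemma dt_neg' (γ : Fin n → ℤ) (x : Fin n → ℝ) : dt γ (-x) = -dt γ x := by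
  unfold dt
  rw [← Finset.sum_neg_distrib]
  refine Finset.sum_congr rfl fun j _ => ?_
  simp only [Pi.neg_apply]
  ring

lemma dt_zero' (γ : Fin n → ℤ) : dt γ 0 = 0 := by
  simp [dt]

/-- values of Laurent monomials at `y = exp (x + iθ)` -/
def E (γ : Fin n → ℤ) (x θ : Fin n → ℝ) : ℂ := (Real.exp (dt γ x) : ℂ) * ch γ θ

lemma E_add (γ γ' : Fin n → ℤ) (x θ : Fin n → ℝ) : E (γ + γ') x θ = E γ x θ * E γ' x θ := by
  unfold E
  rw [ch_add]
  have : dt (γ + γ') x = dt γ x + dt γ' x := by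
    unfold dt
    rw [← Finset.sum_add_distrib]
    refine Finset.sum_congr rfl fun j _ => ?_
    simp only [Pi.add_apply]
    push_cast
    ring
  rw [this, Real.exp_add]
  push_cast
  ring

lemma E_zero (γ : Fin n → ℤ) (θ : Fin n → ℝ) : E γ 0 θ = ch γ θ := by
  simp [E, dt_zero']

lemma E_neg (γ : Fin n → ℤ) (x θ : Fin n → ℝ) : E (-γ) x θ = conj (E γ (-x) θ) := by
  unfold E
  rw [ch_neg, dt_neg, dt_neg', map_mul, Complex.conj_ofReal]

/-- the point `exp (x + iθ)` -/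
def pt (x θ : Fin n → ℝ) : Fin n → ℂ := fun j => (Real.exp (x j) : ℂ) * Complex.exp (θ j * Complex.I)

lemma prod_pt (k : Fin n → ℕ) (x θ : Fin n → ℝ) :
    ∏ j, pt x θ j ^ k j = E (fun j => (k j : ℤ)) x θ := by
  unfold E dt ch pt
  rw [Complex.ofReal_exp, ← Complex.exp_add]
  have : ∀ j, ((Real.exp (x j) : ℂ) * Complex.exp (θ j * Complex.I)) ^ k j
      = Complex.exp ((k j : ℂ) * x j + (k j : ℂ) * (θ j * Complex.I)) := by
    intro j
    rw [Complex.ofReal_exp, ← Complex.exp_add, ← Complex.exp_nat_mul]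
    congr 1
    ring
  simp_rw [this]
  rw [← Complex.exp_sum]
  congr 1
  rw [Finset.sum_add_distrib]
  push_cast
  rw [Finset.mul_sum]
  congr 1
  refine Finset.sum_congr rfl fun j _ => ?_
  ring

lemma mon_pt (k : Fin n → ℕ) (x θ : Fin n → ℝ) : mon k (pt x θ) = E (fun j => (k j : ℤ)) x θ :=
  prod_pt k x θ

/-- box sums -/
def LB (D : ℕ) (F : (Fin n → ℤ) → ℂ) (x θ : Fin n → ℝ) : ℂ := ∑ γ ∈ Box n D, F γ * E γ x θ

lemma dt_le {D : ℕ} {γ : Fin n → ℤ} (hγ : γ ∈ Box n D) {x : Fin n → ℝ} {X : ℝ}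
    (hx : ∀ j, |x j| ≤ X) : |dt γ x| ≤ n * D * X := by
  unfold dt
  refine (Finset.abs_sum_le_sum_abs _ _).trans ?_
  have : ∀ j ∈ (Finset.univ : Finset (Fin n)), |(γ j : ℝ) * x j| ≤ D * X := by
    intro j _
    rw [abs_mul]
    have h1 : |(γ j : ℝ)| ≤ D := by
      have := mem_Box.1 hγ j
      rw [← Int.cast_abs]
      exact_mod_cast this
    exact mul_le_mul h1 (hx j) (abs_nonneg _) (by positivity)
  refine (Finset.sum_le_sum this).trans ?_
  simp [Finset.sum_const, mul_assoc]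

lemma E_sub_ch {D : ℕ} {γ : Fin n → ℤ} (hγ : γ ∈ Box n D) {x θ : Fin n → ℝ} {X : ℝ}
    (hx : ∀ j, |x j| ≤ X) (hX : n * D * X ≤ 1) : ‖E γ x θ - ch γ θ‖ ≤ 2 * (n * D * X) := by
  have h1 := dt_le hγ hx
  have h2 : E γ x θ - ch γ θ = ((Real.exp (dt γ x) - 1 : ℝ) : ℂ) * ch γ θ := by
    unfold E
    push_cast
    ring
  rw [h2, norm_mul, norm_ch, mul_one, Complex.norm_real, Real.norm_eq_abs]
  refine (Real.abs_exp_sub_one_le (h1.trans hX)).trans ?_
  linarith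

lemma LB_sub {D : ℕ} (F : (Fin n → ℤ) → ℂ) {x θ : Fin n → ℝ} {X : ℝ}
    (hx : ∀ j, |x j| ≤ X) (hX : n * D * X ≤ 1) :
    ‖LB D F x θ - ∑ γ ∈ Box n D, F γ * ch γ θ‖ ≤ (∑ γ ∈ Box n D, ‖F γ‖) * (2 * (n * D * X)) := by
  unfold LB
  rw [← Finset.sum_sub_distrib, Finset.sum_mul]
  refine (norm_sum_le _ _).trans (Finset.sum_le_sum fun γ hγ => ?_)
  rw [← mul_sub, norm_mul]
  exact mul_le_mul_of_nonneg_left (E_sub_ch hγ hx hX) (norm_nonneg _)

lemma abs_exp_sub_exp_neg {s : ℝ} (hs : |s| ≤ 1) :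
    |Real.exp s - Real.exp (-s) - 2 * s| ≤ |s| ^ 3 := by
  have h1 := Real.exp_bound hs (n := 3) (by norm_num)
  have h2 := Real.exp_bound (x := -s) (by rwa [abs_neg]) (n := 3) (by norm_num)
  simp only [Finset.sum_range_succ, Finset.sum_range_zero, Nat.factorial] at h1 h2
  rw [abs_neg] at h2
  norm_num at h1 h2
  have h3 : 0 ≤ |s| ^ 3 := by positivity
  rw [abs_le] at h1 h2 ⊢
  constructor <;> nlinarith [h1.1, h1.2, h2.1, h2.2]

lemma E_sinh {D : ℕ} {γ : Fin n → ℤ} (hγ : γ ∈ Box n D) {x θ : Fin n → ℝ} {X : ℝ}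
    (hx : ∀ j, |x j| ≤ X) (hX : n * D * X ≤ 1) :
    ‖E γ x θ - E γ (-x) θ - 2 * ((dt γ x : ℝ) : ℂ) * ch γ θ‖ ≤ (n * D * X) ^ 3 := by
  have h1 := dt_le hγ hx
  have h2 : E γ x θ - E γ (-x) θ - 2 * ((dt γ x : ℝ) : ℂ) * ch γ θ
      = ((Real.exp (dt γ x) - Real.exp (-dt γ x) - 2 * dt γ x : ℝ) : ℂ) * ch γ θ := by
    unfold E
    rw [dt_neg']
    push_cast
    ring
  rw [h2, norm_mul, norm_ch, mul_one, Complex.norm_real, Real.norm_eq_abs]
  refine (abs_exp_sub_exp_neg (h1.trans hX)).trans ?_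
  exact pow_le_pow_left₀ (abs_nonneg _) h1 3

lemma LB_sinh {D : ℕ} (F : (Fin n → ℤ) → ℂ) {x θ : Fin n → ℝ} {X : ℝ}
    (hx : ∀ j, |x j| ≤ X) (hX : n * D * X ≤ 1) :
    ‖LB D F x θ - LB D F (-x) θ - 2 * ∑ j, (x j : ℂ) * ∑ γ ∈ Box n D, F γ * (γ j : ℂ) * ch γ θ‖
      ≤ (∑ γ ∈ Box n D, ‖F γ‖) * (n * D * X) ^ 3 := by
  have h1 : 2 * ∑ j, (x j : ℂ) * ∑ γ ∈ Box n D, F γ * (γ j : ℂ) * ch γ θ
      = ∑ γ ∈ Box n D, F γ * (2 * ((dt γ x : ℝ) : ℂ) * ch γ θ) := by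
    simp_rw [Finset.mul_sum]
    rw [Finset.sum_comm]
    refine Finset.sum_congr rfl fun γ _ => ?_
    unfold dt
    push_cast
    rw [Finset.mul_sum, Finset.sum_mul, Finset.mul_sum]
    refine Finset.sum_congr rfl fun j _ => ?_
    ring
  unfold LB
  rw [h1, ← Finset.sum_sub_distrib, ← Finset.sum_sub_distrib, Finset.sum_mul]
  refine (norm_sum_le _ _).trans (Finset.sum_le_sum fun γ hγ => ?_)
  rw [← mul_sub, ← mul_sub, norm_mul]
  exact mul_le_mul_of_nonneg_left (E_sinh hγ hx hX) (norm_nonneg _)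

/-- sums over a box of an extended coefficient family -/
lemma box_sum_ext {D : ℕ} (p : (Fin n → ℕ) →₀ ℂ) (hD : ∀ γ ∈ p.support, ∀ j, γ j ≤ D)
    (G : (Fin n → ℤ) → ℂ) :
    ∑ γ ∈ Box n D, ext (⇑p) γ * G γ = p.sum fun γ c => c * G (fun j => (γ j : ℤ)) := by
  classical
  let ι : (Fin n → ℕ) ↪ (Fin n → ℤ) := ⟨fun γ j => (γ j : ℤ), fun a b h => by
    funext j
    have := congrFun h j
    simpa using this⟩
  have hι : ∀ γ j, ι γ j = (γ j : ℤ) := fun _ _ => rfl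
  have h1 : ∑ γ ∈ p.support.map ι, ext (⇑p) γ * G γ = ∑ γ ∈ Box n D, ext (⇑p) γ * G γ := by
    refine Finset.sum_subset ?_ ?_
    · intro γ hγ
      rw [Finset.mem_map] at hγ
      obtain ⟨γ', h', rfl⟩ := hγ
      rw [mem_Box]
      intro j
      have := hD γ' h' j
      rw [hι, Nat.abs_cast]
      exact_mod_cast this
    · intro γ _ hγ
      rw [Finset.mem_map] at hγ
      push Not at hγ
      unfold ext
      split_ifs with h
      · have h2 : (fun j => (γ j).toNat) ∉ p.support := by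
          intro h3
          refine hγ _ h3 ?_
          funext j
          rw [hι]
          exact Int.toNat_of_nonneg (h j)
        rw [Finsupp.notMem_support_iff.1 h2, zero_mul]
      · rw [zero_mul]
  rw [← h1, Finset.sum_map]
  unfold Finsupp.sum
  refine Finset.sum_congr rfl fun γ _ => ?_
  have : ext (⇑p) (ι γ) = p γ := by
    unfold ext
    simp only [hι, Int.toNat_natCast]
    rw [if_pos fun j => Int.natCast_nonneg _]
  rw [this]
  rfl

lemma evT_eq_box {D : ℕ} (K : (Fin n → ℤ) →₀ ℂ) (hD : K.support ⊆ Box n D) (θ : Fin n → ℝ) :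
    evT K θ = ∑ γ ∈ Box n D, K γ * ch γ θ := by
  unfold evT
  rw [Finsupp.sum_of_support_subset K hD]
  · rfl
  · intro γ _
    simp

end

end Rec

end Pool.Agent.Lib.MP_6ff8d9_an
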