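import Pool.Agent.Lib.MP_6ff8d9_an_h73.Seq

/-! Points of the ball far from and near to the torus. -/

open Metric Filter Topology

namespace Pool.Agent.Lib.MP_6ff8d9_an

namespace Rec

noncomputable section

open scoped ComplexConjugate

variable {n : ℕ}

lemma far_bound (n : ℕ) {κ : ℝ} (hκ : 0 < κ) : ∃ q : ℝ, 0 ≤ q ∧ q < 1 ∧
    ∀ y ∈ Dn n, (∃ j, κ ≤ |‖y j‖ ^ 2 - 1|) → ∏ j, ‖y j‖ ≤ q := by
  let K : Set ℝ := {t | t ∈ Set.Icc (0 : ℝ) n ∧ κ ≤ |t - 1|}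
  have hK : IsCompact K := by
    apply isCompact_Icc.inter_right (t := {t : ℝ | κ ≤ |t - 1|})
    exact isClosed_le continuous_const (by fun_prop)
  have hle : ∀ t : ℝ, t * Real.exp (1 - t) ≤ 1 := by
    intro t
    have h1 := Real.add_one_le_exp (t - 1)
    have h2 : Real.exp (t - 1) * Real.exp (1 - t) = 1 := by
      rw [← Real.exp_add]; simp
    have h3 := Real.exp_pos (1 - t)
    nlinarith
  have hlt : ∀ t ∈ K, t * Real.exp (1 - t) < 1 := by
    intro t ht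
    have hne : t - 1 ≠ 0 := by
      intro h
      have := ht.2
      rw [h, abs_zero] at this
      linarith
    have h1 := Real.add_one_lt_exp hne
    have h2 : Real.exp (t - 1) * Real.exp (1 - t) = 1 := by
      rw [← Real.exp_add]; simp
    have h3 := Real.exp_pos (1 - t)
    nlinarith
  rcases K.eq_empty_or_nonempty with hemp | hne
  · refine ⟨0, le_rfl, one_pos, fun y hy hj => ?_⟩
    exfalso
    obtain ⟨j, hj⟩ := hj
    have : ‖y j‖ ^ 2 ∈ K := by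
      refine ⟨⟨by positivity, ?_⟩, hj⟩
      have h1 : ∑ j, ‖y j‖ ^ 2 < (n : ℝ) := hy
      have h2 := Finset.single_le_sum (f := fun j => ‖y j‖ ^ 2) (fun i _ => by positivity)
        (Finset.mem_univ j)
      linarith
    rw [hemp] at this
    exact this
  · obtain ⟨t0, ht0, hmax⟩ := hK.exists_isMaxOn hne
      (f := fun t => t * Real.exp (1 - t)) (by fun_prop)
    have hq0 : 0 ≤ t0 * Real.exp (1 - t0) := mul_nonneg ht0.1.1 (Real.exp_pos _).le
    refine ⟨Real.sqrt (t0 * Real.exp (1 - t0)), Real.sqrt_nonneg _, ?_, fun y hy hj => ?_⟩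
    · rw [Real.sqrt_lt' one_pos]
      simpa using hlt t0 ht0
    obtain ⟨j, hj⟩ := hj
    have hsum : ∑ j, ‖y j‖ ^ 2 < (n : ℝ) := hy
    have hmem : ‖y j‖ ^ 2 ∈ K := by
      refine ⟨⟨by positivity, ?_⟩, hj⟩
      have h2 := Finset.single_le_sum (f := fun j => ‖y j‖ ^ 2) (fun i _ => by positivity)
        (Finset.mem_univ j)
      linarith
    have hj1 : ‖y j‖ ^ 2 * Real.exp (1 - ‖y j‖ ^ 2) ≤ t0 * Real.exp (1 - t0) := hmax hmem
    apply Real.le_sqrt_of_sq_le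
    rw [← Finset.prod_pow]
    have h1 : ∏ j, ‖y j‖ ^ 2 = (∏ j, ‖y j‖ ^ 2 * Real.exp (1 - ‖y j‖ ^ 2))
        * Real.exp (∑ j, ‖y j‖ ^ 2 - n) := by
      rw [Finset.prod_mul_distrib, ← Real.exp_sum, mul_assoc, ← Real.exp_add]
      have : ∑ j, (1 - ‖y j‖ ^ 2) + (∑ j, ‖y j‖ ^ 2 - n) = 0 := by
        rw [Finset.sum_sub_distrib]
        simp
      rw [this, Real.exp_zero, mul_one]
    rw [h1]
    have h2 : Real.exp (∑ j, ‖y j‖ ^ 2 - n) ≤ 1 := by
      rw [Real.exp_le_one_iff]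
      linarith
    have h3 : ∏ j, ‖y j‖ ^ 2 * Real.exp (1 - ‖y j‖ ^ 2) ≤ t0 * Real.exp (1 - t0) := by
      rw [← Finset.mul_prod_erase _ _ (Finset.mem_univ j)]
      have h4 : ∏ i ∈ Finset.univ.erase j, ‖y i‖ ^ 2 * Real.exp (1 - ‖y i‖ ^ 2) ≤ 1 :=
        Finset.prod_le_one (fun i _ => by positivity) fun i _ => hle _
      have h5 : 0 ≤ ∏ i ∈ Finset.univ.erase j, ‖y i‖ ^ 2 * Real.exp (1 - ‖y i‖ ^ 2) :=
        Finset.prod_nonneg fun i _ => by positivity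
      calc _ ≤ (t0 * Real.exp (1 - t0)) * 1 := mul_le_mul hj1 h4 h5 hq0
        _ = _ := mul_one _
    have h6 : 0 ≤ ∏ j, ‖y j‖ ^ 2 * Real.exp (1 - ‖y j‖ ^ 2) :=
      Finset.prod_nonneg fun i _ => by positivity
    calc _ ≤ (∏ j, ‖y j‖ ^ 2 * Real.exp (1 - ‖y j‖ ^ 2)) * 1 := by gcongr
      _ ≤ _ := by linarith

lemma norm_prod_far (hn : 1 ≤ n) {D m : ℕ} (hD : D ≤ m) {γ : Fin n → ℤ} (hγ : γ ∈ Box n D)
    {y : Fin n → ℂ} (hy : y ∈ Dn n) {q : ℝ} (hq : ∏ j, ‖y j‖ ≤ q) :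
    ‖∏ j, y j ^ (γ j + m).toNat‖ ≤ ((n : ℝ) ^ (2 * D)) ^ n * q ^ (m - D) := by
  have h1 : ∀ j, ‖y j ^ (γ j + m).toNat‖ = ‖y j‖ ^ (γ j + D).toNat * ‖y j‖ ^ (m - D) := by
    intro j
    rw [norm_pow, ← pow_add]
    congr 1
    have h1 := (abs_le.1 (mem_Box.1 hγ j)).1
    omega
  rw [norm_prod]
  simp_rw [h1]
  rw [Finset.prod_mul_distrib, Finset.prod_pow]
  have h2 : ∏ j, ‖y j‖ ^ (γ j + D).toNat ≤ ∏ _j : Fin n, (n : ℝ) ^ (2 * D) := by
    refine Finset.prod_le_prod (fun j _ => by positivity) fun j _ => ?_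
    have hn1 : (1 : ℝ) ≤ n := by exact_mod_cast hn
    have h3 : ‖y j‖ ≤ n := by
      have h1 : ∑ j, ‖y j‖ ^ 2 < (n : ℝ) := hy
      have h2 := Finset.single_le_sum (f := fun j => ‖y j‖ ^ 2) (fun i _ => by positivity)
        (Finset.mem_univ j)
      nlinarith [norm_nonneg (y j)]
    have h4 : (γ j + D).toNat ≤ 2 * D := by
      have h1 := (abs_le.1 (mem_Box.1 hγ j)).2
      omega
    calc ‖y j‖ ^ (γ j + D).toNat ≤ (n : ℝ) ^ (γ j + D).toNat := by gcongr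
      _ ≤ _ := pow_le_pow_right₀ hn1 h4
  rw [Finset.prod_const, Finset.card_univ, Fintype.card_fin] at h2
  have h3 : 0 ≤ ∏ j, ‖y j‖ := Finset.prod_nonneg fun j _ => norm_nonneg _
  gcongr

/-- polar coordinates -/
lemma exists_polar {y : Fin n → ℂ} {κ : ℝ} (hκ2 : κ ≤ 1 / 2)
    (hy : ∀ j, |‖y j‖ ^ 2 - 1| ≤ κ) :
    ∃ x θ : Fin n → ℝ, y = pt x θ ∧ (∀ j, |x j| ≤ κ) ∧ ∀ j, ‖y j‖ = Real.exp (x j) := by
  have hpos : ∀ j, 0 < ‖y j‖ := by
    intro j
    rw [norm_pos_iff]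
    intro h
    have := hy j
    rw [h] at this
    norm_num at this
    linarith
  refine ⟨fun j => Real.log ‖y j‖, fun j => Complex.arg (y j), ?_, ?_, ?_⟩
  · funext j
    unfold pt
    rw [Real.exp_log (hpos j)]
    exact (Complex.norm_mul_exp_arg_mul_I (y j)).symm
  · intro j
    have h1 := abs_le.1 (hy j)
    have hp : 0 < ‖y j‖ ^ 2 := by have := hpos j; positivity
    have h2 := Real.log_le_sub_one_of_pos hp
    have h3 := Real.one_sub_inv_le_log_of_pos hp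
    rw [Real.log_pow] at h2 h3
    push_cast at h2 h3
    have h4 : -(2 * κ) ≤ 1 - (‖y j‖ ^ 2)⁻¹ := by
      have h5 : (‖y j‖ ^ 2)⁻¹ ≤ 1 + 2 * κ := by
        rw [inv_le_iff_one_le_mul₀ hp]
        have hκ0 : 0 ≤ κ := (abs_nonneg _).trans (hy j)
        nlinarith
      linarith
    rw [abs_le]
    constructor <;> linarith
  · intro j
    simp only
    rw [Real.exp_log (hpos j)]

lemma exp_two_mul_ge {x : ℝ} (hx : |x| ≤ 1 / 2) :
    1 + 2 * x + 2 * x ^ 2 * (1 - |x|) ≤ Real.exp (2 * x) := by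
  have h0 : |2 * x| ≤ 1 := by
    rw [abs_mul, abs_of_pos (by norm_num : (0 : ℝ) < 2)]
    linarith
  have h1 := Real.exp_bound h0 (n := 3) (by norm_num)
  simp only [Finset.sum_range_succ, Finset.sum_range_zero, Nat.factorial] at h1
  rw [abs_mul, abs_of_pos (by norm_num : (0 : ℝ) < 2)] at h1
  norm_num at h1
  have h2 := (abs_le.1 h1).1
  have h3 : x ^ 2 * |x| = |x| ^ 3 := by
    rw [← sq_abs]; ring
  have h4 : 0 ≤ |x| ^ 3 := by positivity
  nlinarith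

lemma constraint {κ : ℝ} (hκ2 : κ ≤ 1 / 2) {x : Fin n → ℝ} (hx : ∀ j, |x j| ≤ κ)
    (hs : ∑ j, Real.exp (x j) ^ 2 < (n : ℝ)) :
    (1 - κ) * ∑ j, x j ^ 2 ≤ -∑ j, x j := by
  have h1 : ∀ j ∈ (Finset.univ : Finset (Fin n)),
      1 + 2 * x j + 2 * ((1 - κ) * x j ^ 2) ≤ Real.exp (x j) ^ 2 := by
    intro j _
    have h2 := exp_two_mul_ge ((hx j).trans hκ2)
    have h3 : Real.exp (x j) ^ 2 = Real.exp (2 * x j) := by
      rw [← Real.exp_nat_mul]
      norm_num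
    rw [h3]
    refine le_trans ?_ h2
    have h4 : (1 - κ) * x j ^ 2 ≤ x j ^ 2 * (1 - |x j|) := by
      have := hx j
      nlinarith [sq_nonneg (x j)]
    linarith
  have h2 := Finset.sum_le_sum h1
  rw [Finset.sum_add_distrib, Finset.sum_add_distrib, ← Finset.mul_sum, ← Finset.mul_sum,
    ← Finset.mul_sum] at h2
  simp only [Finset.sum_const, Finset.card_univ, Fintype.card_fin, nsmul_eq_mul, mul_one] at h2
  linarith

lemma one_sub_exp_ge {t : ℝ} (ht : 0 ≤ t) : 2 * t * (1 - t) ≤ 1 - Real.exp (-(2 * t)) := by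
  have h1 := Real.quadratic_le_exp_of_nonneg (by positivity : 0 ≤ 2 * t)
  have h2 : Real.exp (-(2 * t)) * Real.exp (2 * t) = 1 := by
    rw [← Real.exp_add]; simp
  have h3 := Real.exp_pos (-(2 * t))
  have h4 : Real.exp (-(2 * t)) * (1 + 2 * t + 2 * t ^ 2) ≤ 1 := by
    calc _ ≤ Real.exp (-(2 * t)) * Real.exp (2 * t) := by
          apply mul_le_mul_of_nonneg_left _ h3.le
          linarith
      _ = 1 := h2
  have h5 : 0 < 1 + 2 * t + 2 * t ^ 2 := by positivity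
  have h6 : 1 ≤ (1 - 2 * t + 2 * t ^ 2) * (1 + 2 * t + 2 * t ^ 2) := by
    have : (1 - 2 * t + 2 * t ^ 2) * (1 + 2 * t + 2 * t ^ 2) = 1 + 4 * t ^ 4 := by ring
    rw [this]
    have : 0 ≤ t ^ 4 := by positivity
    linarith
  have h7 : Real.exp (-(2 * t)) ≤ 1 - 2 * t + 2 * t ^ 2 := by
    by_contra hc
    push Not at hc
    have := mul_lt_mul_of_pos_right hc h5
    linarith
  linarith

/-- the value of `f_m` near the torus -/
lemma value_near {D m : ℕ} (hD : D < m) (p : (Fin n → ℕ) →₀ ℂ)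
    (hp : ∀ γ ∈ p.support, ∀ j, γ j ≤ D) (K0 K1 : (Fin n → ℤ) → ℂ) (x θ : Fin n → ℝ) :
    (p.sum fun γ c => c * mon γ (pt x θ)) +
        ∑ γ ∈ Box n D, (∏ j, pt x θ j ^ (γ j + m).toNat) *
          ((ext (⇑p) γ + conj (ext (⇑p) (-γ)) - 2 / m * K0 γ) / (1 - ww m (pt x θ))
            + 2 / m * K1 γ) =
      LB D (ext ⇑p) x θ + ww m (pt x θ) / (1 - ww m (pt x θ)) *
        (LB D (ext ⇑p) x θ + conj (LB D (ext ⇑p) (-x) θ) - 2 / m * LB D K0 x θ)
        + 2 / m * LB D K1 x θ * ww m (pt x θ) := by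
  have h1 : (p.sum fun γ c => c * mon γ (pt x θ)) = LB D (ext ⇑p) x θ := by
    unfold LB
    rw [box_sum_ext p hp]
    refine Finset.sum_congr rfl fun γ _ => ?_
    show p γ * mon γ (pt x θ) = _
    rw [mon_pt]
  have h2 : ∀ γ ∈ Box n D, ∏ j, pt x θ j ^ (γ j + m).toNat = E γ x θ * ww m (pt x θ) := by
    intro γ hγ
    rw [prod_pt]
    have h3 : (fun j => (((γ j + m).toNat : ℕ) : ℤ)) = γ + fun _ => (m : ℤ) := by
      funext j
      simp only [Pi.add_apply]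
      apply Int.toNat_of_nonneg
      have h1 := (abs_le.1 (mem_Box.1 hγ j)).1
      omega
    rw [h3, E_add]
    congr 1
    unfold ww
    rw [prod_pt]
  have h3 : conj (LB D (ext ⇑p) (-x) θ) = ∑ γ ∈ Box n D, conj (ext (⇑p) (-γ)) * E γ x θ := by
    unfold LB
    rw [map_sum]
    refine Finset.sum_bij (fun γ _ => -γ) ?_ ?_ ?_ ?_
    · intro γ hγ
      rw [mem_Box] at hγ ⊢
      intro j
      rw [Pi.neg_apply, abs_neg]
      exact hγ j
    · intro a _ b _ h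
      exact neg_injective h
    · intro b hb
      refine ⟨-b, ?_, neg_neg b⟩
      rw [mem_Box] at hb ⊢
      intro j
      rw [Pi.neg_apply, abs_neg]
      exact hb j
    · intro γ _
      rw [neg_neg, E_neg, map_mul]
  rw [h1, h3]
  generalize hw : ww m (pt x θ) = w at *
  have h4 : ∑ γ ∈ Box n D, (∏ j, pt x θ j ^ (γ j + m).toNat) *
          ((ext (⇑p) γ + conj (ext (⇑p) (-γ)) - 2 / m * K0 γ) / (1 - w) + 2 / m * K1 γ)
      = w / (1 - w) * (LB D (ext ⇑p) x θ + (∑ γ ∈ Box n D, conj (ext (⇑p) (-γ)) * E γ x θ)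
          - 2 / m * LB D K0 x θ) + 2 / m * LB D K1 x θ * w := by
    unfold LB
    rw [← Finset.sum_add_distrib, Finset.mul_sum, ← Finset.sum_sub_distrib, Finset.mul_sum,
      Finset.mul_sum, Finset.sum_mul, ← Finset.sum_add_distrib]
    refine Finset.sum_congr rfl fun γ hγ => ?_
    rw [h2 γ hγ]
    ring
  rw [h4]
  ring

lemma norm_ww_pt (m : ℕ) (x θ : Fin n → ℝ) : ‖ww m (pt x θ)‖ = Real.exp (m * ∑ j, x j) := by
  unfold ww
  rw [prod_pt (fun _ => m)]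
  unfold E
  rw [norm_mul, norm_ch, mul_one, Complex.norm_real, Real.norm_of_nonneg (Real.exp_pos _).le]
  congr 1
  unfold dt
  rw [Finset.mul_sum]
  simp

end

end Rec

end Pool.Agent.Lib.MP_6ff8d9_an
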