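import Pool.Agent.Lib.MP_6ff8d9_an_h73.Laurent

/-! Trigonometric polynomials: closure properties and the choice of `K0`, `K1`. -/

open Metric Filter Topology

namespace Pool.Agent.Lib.MP_6ff8d9_an

namespace Rec

noncomputable section

open scoped ComplexConjugate

variable {n : ℕ}

/-- the function is a trigonometric polynomial -/
def TP (F : (Fin n → ℝ) → ℂ) : Prop := ∃ K : (Fin n → ℤ) →₀ ℂ, ∀ θ, evT K θ = F θ

lemma evT_def (K : (Fin n → ℤ) →₀ ℂ) (θ : Fin n → ℝ) :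
    evT K θ = K.sum fun γ a => a * ch γ θ := rfl

lemma evT_add (K L : (Fin n → ℤ) →₀ ℂ) (θ : Fin n → ℝ) : evT (K + L) θ = evT K θ + evT L θ := by
  simp only [evT_def]
  rw [Finsupp.sum_add_index']
  · intro γ; simp
  · intro γ a b; ring

lemma evT_single (γ : Fin n → ℤ) (a : ℂ) (θ : Fin n → ℝ) :
    evT (Finsupp.single γ a) θ = a * ch γ θ := by
  rw [evT_def, Finsupp.sum_single_index]
  simp

lemma TP.congr {F G : (Fin n → ℝ) → ℂ} (hF : TP F) (h : ∀ θ, G θ = F θ) : TP G := by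
  obtain ⟨K, hK⟩ := hF
  exact ⟨K, fun θ => by rw [hK, h]⟩

lemma TP.add {F G : (Fin n → ℝ) → ℂ} (hF : TP F) (hG : TP G) : TP (fun θ => F θ + G θ) := by
  obtain ⟨K, hK⟩ := hF
  obtain ⟨L, hL⟩ := hG
  exact ⟨K + L, fun θ => by rw [evT_add, hK, hL]⟩

lemma TP_ch (a : ℂ) (γ : Fin n → ℤ) : TP (fun θ => a * ch γ θ) :=
  ⟨Finsupp.single γ a, fun θ => evT_single γ a θ⟩

lemma TP_const (a : ℂ) : TP (fun _ : Fin n → ℝ => a) :=
  (TP_ch a 0).congr fun θ => by rw [ch_zero, mul_one]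

lemma TP.ch_mul {G : (Fin n → ℝ) → ℂ} (hG : TP G) (a : ℂ) (γ : Fin n → ℤ) :
    TP (fun θ => (a * ch γ θ) * G θ) := by
  obtain ⟨L, hL⟩ := hG
  suffices h : ∀ L : (Fin n → ℤ) →₀ ℂ, TP (fun θ => (a * ch γ θ) * evT L θ) from
    (h L).congr fun θ => by rw [hL]
  intro L
  induction L using Finsupp.induction_linear with
  | zero => exact (TP_const 0).congr fun θ => by simp [evT_def]
  | add f g hf hg => exact (hf.add hg).congr fun θ => by rw [evT_add]; ring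
  | single γ' b => exact (TP_ch (a * b) (γ + γ')).congr fun θ => by rw [evT_single, ch_add]; ring

lemma TP.mul {F G : (Fin n → ℝ) → ℂ} (hF : TP F) (hG : TP G) : TP (fun θ => F θ * G θ) := by
  obtain ⟨K, hK⟩ := hF
  suffices h : ∀ K : (Fin n → ℤ) →₀ ℂ, TP (fun θ => evT K θ * G θ) from
    (h K).congr fun θ => by rw [hK]
  intro K
  induction K using Finsupp.induction_linear with
  | zero => exact (TP_const 0).congr fun θ => by simp [evT_def]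
  | add f g hf hg => exact (hf.add hg).congr fun θ => by rw [evT_add]; ring
  | single γ b => exact (hG.ch_mul b γ).congr fun θ => by rw [evT_single]

lemma TP.conj' {F : (Fin n → ℝ) → ℂ} (hF : TP F) : TP (fun θ => conj (F θ)) := by
  obtain ⟨K, hK⟩ := hF
  suffices h : ∀ K : (Fin n → ℤ) →₀ ℂ, TP (fun θ => conj (evT K θ)) from
    (h K).congr fun θ => by rw [hK]
  intro K
  induction K using Finsupp.induction_linear with
  | zero => exact (TP_const 0).congr fun θ => by simp [evT_def]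
  | add f g hf hg => exact (hf.add hg).congr fun θ => by rw [evT_add, map_add]
  | single γ b =>
    exact (TP_ch (conj b) (-γ)).congr fun θ => by rw [evT_single, ch_neg, map_mul]

lemma TP_sum {ι : Type*} (s : Finset ι) (F : ι → (Fin n → ℝ) → ℂ) (h : ∀ i ∈ s, TP (F i)) :
    TP (fun θ => ∑ i ∈ s, F i θ) := by
  classical
  induction s using Finset.induction_on with
  | empty => exact (TP_const 0).congr fun θ => by simp
  | insert a s ha ih =>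
    refine ((h a (Finset.mem_insert_self _ _)).add
      (ih fun i hi => h i (Finset.mem_insert_of_mem hi))).congr fun θ => ?_
    rw [Finset.sum_insert ha]

lemma TP.pow {F : (Fin n → ℝ) → ℂ} (hF : TP F) (k : ℕ) : TP (fun θ => F θ ^ k) := by
  induction k with
  | zero => exact (TP_const 1).congr fun θ => by simp
  | succ k ih => exact (ih.mul hF).congr fun θ => by rw [pow_succ]

lemma TP.poly {F : (Fin n → ℝ) → ℂ} {u : (Fin n → ℝ) → ℝ} (hF : TP F) (hu : ∀ θ, F θ = (u θ : ℂ))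
    (q : Polynomial ℝ) : TP (fun θ => ((q.eval (u θ) : ℝ) : ℂ)) := by
  induction q using Polynomial.induction_on' with
  | add p q hp hq => exact (hp.add hq).congr fun θ => by rw [Polynomial.eval_add]; push_cast; ring
  | monomial k a =>
    exact ((TP_const (a : ℂ)).mul (hF.pow k)).congr fun θ => by
      rw [Polynomial.eval_monomial, hu]; push_cast; ring

lemma gT_eq (p : (Fin n → ℕ) →₀ ℂ) (θ : Fin n → ℝ) :
    gT p θ = p.sum fun γ c => c * ch (fun j => (γ j : ℤ)) θ := by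
  unfold gT ch
  simp only [Int.cast_natCast]

lemma DD_eq (p : (Fin n → ℕ) →₀ ℂ) (j : Fin n) (θ : Fin n → ℝ) :
    DD p j θ = p.sum fun γ c => c * ((γ j : ℂ) * ch (fun j => (γ j : ℤ)) θ) := by
  unfold DD ch
  simp only [Int.cast_natCast]
  refine Finset.sum_congr rfl fun γ _ => ?_
  ring

lemma TP_gT (p : (Fin n → ℕ) →₀ ℂ) : TP (gT p) := by
  have : TP (fun θ => ∑ γ ∈ p.support, p γ * ch (fun j => (γ j : ℤ)) θ) :=
    TP_sum _ _ fun γ _ => TP_ch _ _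
  exact this.congr fun θ => by rw [gT_eq]; rfl

lemma TP_DD (p : (Fin n → ℕ) →₀ ℂ) (j : Fin n) : TP (DD p j) := by
  have : TP (fun θ => ∑ γ ∈ p.support, (p γ * (γ j : ℂ)) * ch (fun j => (γ j : ℤ)) θ) :=
    TP_sum _ _ fun γ _ => TP_ch _ _
  exact this.congr fun θ => by
    rw [DD_eq]
    refine Finset.sum_congr rfl fun γ _ => ?_
    ring

lemma TP_DP (p : (Fin n → ℕ) →₀ ℂ) (j : Fin n) : TP (DP p j) := by
  have h1 : TP (fun θ => ∑ i ∈ (Finset.univ : Finset (Fin n)), DD p i θ) :=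
    TP_sum _ _ fun i _ => TP_DD p i
  exact ((TP_DD p j).add ((TP_const (-(n : ℂ)⁻¹)).mul h1)).congr fun θ => by
    unfold DP
    rw [div_eq_mul_inv]
    ring

/-- `∑ ‖D_⊥‖²` -/
def N0 (p : (Fin n → ℕ) →₀ ℂ) (θ : Fin n → ℝ) : ℝ := ∑ j, ‖DP p j θ‖ ^ 2

/-- `∑ D_⊥²` -/
def N1 (p : (Fin n → ℕ) →₀ ℂ) (θ : Fin n → ℝ) : ℂ := ∑ j, DP p j θ ^ 2

lemma TP_N0 (p : (Fin n → ℕ) →₀ ℂ) : TP (fun θ => (N0 p θ : ℂ)) := by
  have : TP (fun θ => ∑ j ∈ (Finset.univ : Finset (Fin n)), DP p j θ * conj (DP p j θ)) :=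
    TP_sum _ _ fun j _ => (TP_DP p j).mul (TP_DP p j).conj'
  refine this.congr fun θ => ?_
  unfold N0
  push_cast
  refine Finset.sum_congr rfl fun j _ => ?_
  rw [Complex.mul_conj, Complex.normSq_eq_norm_sq]
  push_cast
  rfl

lemma TP_N1 (p : (Fin n → ℕ) →₀ ℂ) : TP (N1 p) :=
  TP_sum _ _ fun j _ => (TP_DP p j).pow 2

lemma norm_N1_le (p : (Fin n → ℕ) →₀ ℂ) (θ : Fin n → ℝ) : ‖N1 p θ‖ ≤ N0 p θ := by
  unfold N1 N0
  refine (norm_sum_le _ _).trans (Finset.sum_le_sum fun j _ => ?_)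
  rw [norm_pow]

lemma N0_nonneg (p : (Fin n → ℕ) →₀ ℂ) (θ : Fin n → ℝ) : 0 ≤ N0 p θ :=
  Finset.sum_nonneg fun j _ => by positivity

lemma gT_box {D : ℕ} (p : (Fin n → ℕ) →₀ ℂ) (hD : ∀ γ ∈ p.support, ∀ j, γ j ≤ D) (θ : Fin n → ℝ) :
    gT p θ = ∑ γ ∈ Box n D, ext (⇑p) γ * ch γ θ := by
  rw [gT_eq, box_sum_ext p hD]

lemma DD_box {D : ℕ} (p : (Fin n → ℕ) →₀ ℂ) (hD : ∀ γ ∈ p.support, ∀ j, γ j ≤ D) (j : Fin n)
    (θ : Fin n → ℝ) : DD p j θ = ∑ γ ∈ Box n D, ext (⇑p) γ * (γ j : ℂ) * ch γ θ := by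
  rw [DD_eq]
  have := box_sum_ext p hD (fun γ => (γ j : ℂ) * ch γ θ)
  simp only [Int.cast_natCast] at this
  rw [← this]
  refine Finset.sum_congr rfl fun γ _ => ?_
  ring

lemma norm_gT_le {D : ℕ} (p : (Fin n → ℕ) →₀ ℂ) (hD : ∀ γ ∈ p.support, ∀ j, γ j ≤ D)
    (θ : Fin n → ℝ) : ‖gT p θ‖ ≤ ∑ γ ∈ Box n D, ‖ext (⇑p) γ‖ := by
  rw [gT_box p hD]
  refine (norm_sum_le _ _).trans (Finset.sum_le_sum fun γ _ => ?_)
  rw [norm_mul, norm_ch, mul_one]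

lemma norm_DD_le {D : ℕ} (p : (Fin n → ℕ) →₀ ℂ) (hD : ∀ γ ∈ p.support, ∀ j, γ j ≤ D) (j : Fin n)
    (θ : Fin n → ℝ) : ‖DD p j θ‖ ≤ D * ∑ γ ∈ Box n D, ‖ext (⇑p) γ‖ := by
  rw [DD_box p hD, Finset.mul_sum]
  refine (norm_sum_le _ _).trans (Finset.sum_le_sum fun γ hγ => ?_)
  rw [norm_mul, norm_ch, mul_one, norm_mul, mul_comm]
  refine mul_le_mul_of_nonneg_right ?_ (norm_nonneg _)
  have := mem_Box.1 hγ j
  rw [Complex.norm_intCast, ← Int.cast_abs]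
  exact_mod_cast this

lemma norm_DDmean_le {D : ℕ} (p : (Fin n → ℕ) →₀ ℂ) (hD : ∀ γ ∈ p.support, ∀ j, γ j ≤ D)
    (θ : Fin n → ℝ) : ‖(∑ i, DD p i θ) / n‖ ≤ D * ∑ γ ∈ Box n D, ‖ext (⇑p) γ‖ := by
  have hS : 0 ≤ (D : ℝ) * ∑ γ ∈ Box n D, ‖ext (⇑p) γ‖ := by positivity
  rcases Nat.eq_zero_or_pos n with h | h
  · subst h
    simp only [Finset.univ_eq_empty, Finset.sum_empty, zero_div, norm_zero]
    exact hS
  · rw [norm_div, Complex.norm_natCast, div_le_iff₀ (by exact_mod_cast h)]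
    refine (norm_sum_le _ _).trans ((Finset.sum_le_sum fun i _ => norm_DD_le p hD i θ).trans ?_)
    rw [Finset.sum_const, Finset.card_univ, Fintype.card_fin, nsmul_eq_mul]
    linarith

lemma norm_DP_le {D : ℕ} (p : (Fin n → ℕ) →₀ ℂ) (hD : ∀ γ ∈ p.support, ∀ j, γ j ≤ D) (j : Fin n)
    (θ : Fin n → ℝ) : ‖DP p j θ‖ ≤ 2 * (D * ∑ γ ∈ Box n D, ‖ext (⇑p) γ‖) := by
  unfold DP
  refine (norm_sub_le _ _).trans ?_
  linarith [norm_DD_le p hD j θ, norm_DDmean_le p hD θ]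

lemma N0_le {D : ℕ} (p : (Fin n → ℕ) →₀ ℂ) (hD : ∀ γ ∈ p.support, ∀ j, γ j ≤ D)
    (θ : Fin n → ℝ) : N0 p θ ≤ n * (2 * (D * ∑ γ ∈ Box n D, ‖ext (⇑p) γ‖)) ^ 2 := by
  unfold N0
  have : ∀ j ∈ (Finset.univ : Finset (Fin n)),
      ‖DP p j θ‖ ^ 2 ≤ (2 * (D * ∑ γ ∈ Box n D, ‖ext (⇑p) γ‖)) ^ 2 := fun j _ =>
    pow_le_pow_left₀ (norm_nonneg _) (norm_DP_le p hD j θ) 2
  refine (Finset.sum_le_sum this).trans ?_
  rw [Finset.sum_const, Finset.card_univ, Fintype.card_fin, nsmul_eq_mul]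

/-- the numerator of `kstar` is nonnegative and bounded -/
lemma num_bounds (p : (Fin n → ℕ) →₀ ℂ) (θ : Fin n → ℝ) {w : ℂ} (hw : ‖w‖ ≤ 1) :
    0 ≤ N0 p θ - (w * conj (N1 p θ)).re ∧ N0 p θ - (w * conj (N1 p θ)).re ≤ 2 * N0 p θ := by
  have h1 := Complex.abs_re_le_norm (w * conj (N1 p θ))
  rw [norm_mul, Complex.norm_conj] at h1
  have h2 : ‖w‖ * ‖N1 p θ‖ ≤ 1 * N0 p θ :=
    mul_le_mul hw (norm_N1_le p θ) (norm_nonneg _) zero_le_one
  have h3 := abs_le.1 h1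
  constructor <;> linarith [h3.1, h3.2]

lemma exists_K (p : (Fin n → ℕ) →₀ ℂ) {δ : ℝ} (hδ : 0 < δ) (hu : ∀ θ, δ ≤ (gT p θ).re)
    {ε : ℝ} (hε : 0 < ε) :
    ∃ K0 K1 : (Fin n → ℤ) →₀ ℂ, (∀ θ, (evT K0 θ).im = 0) ∧
      (∀ (θ : Fin n → ℝ) (φ : ℝ), (evT K0 θ).re + 2 * (evT K1 θ * Complex.exp (φ * Complex.I)).re
        ≤ kstar p θ φ + ε) ∧
      (∀ (θ : Fin n → ℝ) (w : ℂ), ‖w‖ ≤ 1 →
        ((∑ j, ‖DP p j θ‖ ^ 2) - (w * conj (∑ j, DP p j θ ^ 2)).re) / (4 * (gT p θ).re) + ε / 2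
          ≤ (evT K0 θ).re + 2 * (evT K1 θ * w).re) := by
  classical
  -- a bound for the exponents
  obtain ⟨D, hD⟩ : ∃ D : ℕ, ∀ γ ∈ p.support, ∀ j, γ j ≤ D := by
    refine ⟨p.support.sup fun γ => Finset.univ.sup γ, fun γ hγ j => ?_⟩
    exact (Finset.le_sup (f := γ) (Finset.mem_univ j)).trans
      (Finset.le_sup (f := fun γ : Fin n → ℕ => Finset.univ.sup γ) hγ)
  obtain ⟨M, hM⟩ : ∃ M : ℝ, ∀ θ, (gT p θ).re ≤ M :=
    ⟨_, fun θ => (Complex.re_le_norm _).trans (norm_gT_le p hD θ)⟩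
  obtain ⟨N, hN⟩ : ∃ N : ℝ, ∀ θ, N0 p θ ≤ N := ⟨_, fun θ => N0_le p hD θ⟩
  have hN0 : 0 ≤ N := (N0_nonneg p 0).trans (hN 0)
  -- the polynomial approximation
  obtain ⟨e, he0, he⟩ : ∃ e : ℝ, 0 < e ∧ 4 * e * N ≤ ε / 2 := by
    refine ⟨ε / (8 * (N + 1)), by positivity, ?_⟩
    rw [mul_div_assoc', div_mul_eq_mul_div, div_le_iff₀ (by positivity)]
    nlinarith
  obtain ⟨q, hq⟩ := exists_polynomial_near_of_continuousOn δ M (fun x => 1 / (4 * x) + e)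
    (by
      apply ContinuousOn.add _ continuousOn_const
      apply ContinuousOn.div continuousOn_const (by fun_prop)
      intro x hx
      have := hx.1
      have : 0 < x := by linarith
      positivity) e he0
  have hq1 : ∀ θ, 1 / (4 * (gT p θ).re) ≤ q.eval (gT p θ).re ∧
      q.eval (gT p θ).re ≤ 1 / (4 * (gT p θ).re) + 2 * e := by
    intro θ
    have := abs_lt.1 (hq (gT p θ).re ⟨hu θ, hM θ⟩)
    constructor <;> linarith [this.1, this.2]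
  -- real part of gT
  have hU : TP (fun θ => (((gT p θ).re : ℝ) : ℂ)) := by
    refine ((TP_const (2⁻¹ : ℂ)).mul ((TP_gT p).add (TP_gT p).conj')).congr fun θ => ?_
    rw [Complex.add_conj]
    push_cast
    ring
  have hqU : TP (fun θ => ((q.eval (gT p θ).re : ℝ) : ℂ)) := hU.poly (fun θ => rfl) q
  obtain ⟨K0, hK0⟩ := (hqU.mul (TP_N0 p)).add (TP_const ((ε / 2 : ℝ) : ℂ))
  obtain ⟨K1, hK1⟩ := ((TP_const (((-(1 / 2) : ℝ)) : ℂ)).mul hqU).mul (TP_N1 p).conj'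
  have hval : ∀ (θ : Fin n → ℝ) (w : ℂ), (evT K0 θ).re + 2 * (evT K1 θ * w).re
      = q.eval (gT p θ).re * (N0 p θ - (w * conj (N1 p θ)).re) + ε / 2 := by
    intro θ w
    rw [hK0, hK1]
    have h1 : (((q.eval (gT p θ).re : ℝ) : ℂ) * (N0 p θ : ℂ) + ((ε / 2 : ℝ) : ℂ)).re
        = q.eval (gT p θ).re * N0 p θ + ε / 2 := by
      rw [Complex.add_re, Complex.re_ofReal_mul, Complex.ofReal_re, Complex.ofReal_re]
    have h2 : (((-(1 / 2) : ℝ) : ℂ) * ((q.eval (gT p θ).re : ℝ) : ℂ) * conj (N1 p θ) * w).re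
        = -(1 / 2) * (q.eval (gT p θ).re * (w * conj (N1 p θ)).re) := by
      rw [mul_assoc, mul_assoc, Complex.re_ofReal_mul, Complex.re_ofReal_mul, mul_comm w]
    rw [h1, h2]
    ring
  refine ⟨K0, K1, ?_, ?_, ?_⟩
  · intro θ
    rw [hK0]
    simp [← Complex.ofReal_mul]
  · intro θ φ
    rw [hval]
    have hw : ‖Complex.exp (φ * Complex.I)‖ ≤ 1 := (Complex.norm_exp_ofReal_mul_I φ).le
    have h1 := num_bounds p θ hw
    have h2 := (hq1 θ).2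
    have h3 : kstar p θ φ = 1 / (4 * (gT p θ).re)
        * (N0 p θ - (Complex.exp (φ * Complex.I) * conj (N1 p θ)).re) := by
      unfold kstar N0 N1
      ring
    rw [h3]
    have h4 := mul_le_mul_of_nonneg_right h2 h1.1
    have h5 : 2 * e * (N0 p θ - (Complex.exp (φ * Complex.I) * conj (N1 p θ)).re)
        ≤ 2 * e * (2 * N) := by
      have := hN θ
      have h6 := h1.2
      gcongr
      linarith
    have h6 : (1 / (4 * (gT p θ).re) + 2 * e)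
        * (N0 p θ - (Complex.exp (φ * Complex.I) * conj (N1 p θ)).re)
        = 1 / (4 * (gT p θ).re) * (N0 p θ - (Complex.exp (φ * Complex.I) * conj (N1 p θ)).re)
          + 2 * e * (N0 p θ - (Complex.exp (φ * Complex.I) * conj (N1 p θ)).re) := by ring
    linarith
  · intro θ w hw
    rw [hval]
    have h1 := num_bounds p θ hw
    have h2 := (hq1 θ).1
    have h4 := mul_le_mul_of_nonneg_right h2 h1.1
    have h5 : ((∑ j, ‖DP p j θ‖ ^ 2) - (w * conj (∑ j, DP p j θ ^ 2)).re) / (4 * (gT p θ).re)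
        = 1 / (4 * (gT p θ).re) * (N0 p θ - (w * conj (N1 p θ)).re) := by
      unfold N0 N1
      ring
    rw [h5]
    linarith

end

end Rec

end Pool.Agent.Lib.MP_6ff8d9_an
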