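import Pool.Agent.Lib.MP_6ff8d9_an_h73.Core
import Pool.Agent.Lib.MP_6ff8d9_an_h73.Region
import Pool.Agent.Lib.MP_6ff8d9_an_h73.Trig

/-! Positivity near the torus. -/

open Metric Filter Topology

namespace Pool.Agent.Lib.MP_6ff8d9_an

namespace Rec

noncomputable section

open scoped ComplexConjugate

variable {n : ℕ}

lemma gT_ge (p : (Fin n → ℕ) →₀ ℂ) (hn : 1 ≤ n) {δ : ℝ}
    (hp : ∀ y ∈ Dn n, δ ≤ (p.sum fun γ c => c * mon γ y).re) (θ : Fin n → ℝ) :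
    δ ≤ (gT p θ).re := by
  let y : ℝ → Fin n → ℂ := fun r j => (r : ℂ) * Complex.exp (θ j * Complex.I)
  have hcont : Continuous fun r : ℝ => (p.sum fun γ c => c * mon γ (y r)).re := by
    unfold Finsupp.sum mon
    apply Complex.continuous_re.comp
    refine continuous_finsetSum _ fun γ _ => ?_
    refine continuous_const.mul (continuous_finsetProd _ fun j _ => ?_)
    refine Continuous.pow ?_ _
    exact Complex.continuous_ofReal.mul continuous_const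
  have h1 : (p.sum fun γ c => c * mon γ (y 1)) = gT p θ := by
    rw [gT_eq]
    refine Finset.sum_congr rfl fun γ _ => ?_
    show p γ * mon γ (y 1) = p γ * ch (fun j => (γ j : ℤ)) θ
    have : y 1 = pt 0 θ := by
      funext j
      simp [y, pt]
    rw [this, mon_pt, E_zero]
  have h2 : Tendsto (fun r : ℝ => (p.sum fun γ c => c * mon γ (y r)).re) (𝓝[<] 1)
      (𝓝 (gT p θ).re) := by
    rw [← h1]
    exact (hcont.tendsto 1).mono_left nhdsWithin_le_nhds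
  refine ge_of_tendsto h2 ?_
  have h3 : ∀ᶠ r : ℝ in 𝓝[<] 1, 0 < r := by
    apply mem_nhdsWithin_of_mem_nhds
    exact lt_mem_nhds one_pos
  filter_upwards [h3, self_mem_nhdsWithin] with r hr0 hr1
  apply hp
  show ∑ j, ‖y r j‖ ^ 2 < (n : ℝ)
  have h4 : ∀ j, ‖y r j‖ ^ 2 = r ^ 2 := by
    intro j
    simp only [y]
    rw [norm_mul, Complex.norm_exp_ofReal_mul_I, mul_one, Complex.norm_real, Real.norm_eq_abs,
      sq_abs]
  simp_rw [h4]
  rw [Finset.sum_const, Finset.card_univ, Fintype.card_fin, nsmul_eq_mul]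
  have h5 : (0 : ℝ) < n := by exact_mod_cast hn
  have h6 : r ^ 2 < 1 := by
    have : r < 1 := hr1
    nlinarith
  nlinarith

/-- the constants -/
structure Consts (n D : ℕ) (S S0 S1 δ ε μ κ b1 : ℝ) : Prop where
  hS : 0 ≤ S
  hS0 : 0 ≤ S0
  hS1 : 0 ≤ S1
  hδ : 0 < δ
  hε : 0 < ε
  hμ : 0 < μ
  hμ4 : μ ≤ 1 / 4
  hμk : 4 * μ * (n * (2 * (D * S)) ^ 2 / (2 * δ)) ≤ ε / 2
  hκ0 : 0 < κ
  hκ2 : κ ≤ 1 / 2
  hκμ : κ ≤ μ / 4
  hκ1 : n * κ ≤ 1
  hκL : n * D * (n * κ) ≤ 1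
  hκu : (S * (2 * (n * D))) * (n * κ) ≤ μ * δ / 2
  hκb : (4 * S * (n * D)) * (n * κ) ≤ b1 * δ / 8
  hb1 : b1 = 1 - Real.exp (-(2 * (μ / 4)))

lemma Consts.b1_pos {n D : ℕ} {S S0 S1 δ ε μ κ b1 : ℝ} (h : Consts n D S S0 S1 δ ε μ κ b1) :
    0 < b1 := by
  rw [h.hb1]
  have := h.hμ
  have : Real.exp (-(2 * (μ / 4))) < 1 := by
    rw [Real.exp_lt_one_iff]
    linarith
  linarith

lemma mX_bound {μ κ t Y b : ℝ} (hμ : 0 < μ) (hμ4 : μ ≤ 1 / 4) (hY0 : 0 ≤ Y) (ht : t ≤ μ / 4)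
    (hκμ : κ ≤ μ / 4) (hcon : (1 - κ) * Y ≤ t) (hb : 2 * t * (1 - t) ≤ b) :
    Y ≤ (1 + μ) * b / 2 := by
  have ht0 : 0 ≤ t := by
    refine le_trans ?_ hcon
    have : 0 ≤ 1 - κ := by linarith
    positivity
  have h0 : 0 ≤ 1 - μ / 4 := by linarith
  have h1 : (1 - μ / 4) * Y ≤ t := by
    refine le_trans ?_ hcon
    have : 1 - μ / 4 ≤ 1 - κ := by linarith
    gcongr
  have h2 : 2 * t * (1 - μ / 4) ≤ b := by
    refine le_trans ?_ hb
    have : 1 - μ / 4 ≤ 1 - t := by linarith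
    gcongr
  have h3 : (1 - μ / 4) * ((1 - μ / 4) * Y) ≤ (1 - μ / 4) * t := by gcongr
  have h4 : (1 - μ / 4) * (1 - μ / 4) * Y ≤ b / 2 := by linarith
  have h5 : 1 ≤ (1 + μ) * ((1 - μ / 4) * (1 - μ / 4)) := by
    have : (1 + μ) * ((1 - μ / 4) * (1 - μ / 4)) = 1 + μ * (1 / 2 - 7 / 16 * μ + μ ^ 2 / 16) := by
      ring
    rw [this]
    have : 0 ≤ μ * (1 / 2 - 7 / 16 * μ + μ ^ 2 / 16) := by
      apply mul_nonneg hμ.le
      nlinarith [sq_nonneg μ]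
    linarith
  calc Y = 1 * Y := (one_mul Y).symm
    _ ≤ ((1 + μ) * ((1 - μ / 4) * (1 - μ / 4))) * Y := by gcongr
    _ = (1 + μ) * ((1 - μ / 4) * (1 - μ / 4) * Y) := by ring
    _ ≤ (1 + μ) * (b / 2) := by gcongr
    _ = _ := by ring

lemma t_le_bound {μ t b : ℝ} (hμ4 : μ ≤ 1 / 4) (ht0 : 0 ≤ t) (ht : t ≤ μ / 4)
    (hb : 2 * t * (1 - t) ≤ b) : t ≤ b := by
  refine le_trans ?_ hb
  nlinarith

lemma near_pos (hn : 1 ≤ n) {D m : ℕ} (p : (Fin n → ℕ) →₀ ℂ)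
    (hD : ∀ γ ∈ p.support, ∀ j, γ j ≤ D) (K0 K1 : (Fin n → ℤ) →₀ ℂ)
    (hK0D : K0.support ⊆ Box n D) (hK1D : K1.support ⊆ Box n D)
    {δ ε μ κ b1 : ℝ}
    (hc : Consts n D (∑ γ ∈ Box n D, ‖ext (⇑p) γ‖) (∑ γ ∈ Box n D, ‖K0 γ‖)
      (∑ γ ∈ Box n D, ‖K1 γ‖) δ ε μ κ b1)
    (hu : ∀ θ, δ ≤ (gT p θ).re) (hK0im : ∀ θ, (evT K0 θ).im = 0)
    (hK : ∀ (θ : Fin n → ℝ) (w : ℂ), ‖w‖ ≤ 1 →
        ((∑ j, ‖DP p j θ‖ ^ 2) - (w * conj (∑ j, DP p j θ ^ 2)).re) / (4 * (gT p θ).re) + ε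
          ≤ (evT K0 θ).re + 2 * (evT K1 θ * w).re)
    (hm1 : 1 ≤ m)
    (hms : (n * (2 * (D * ∑ γ ∈ Box n D, ‖ext (⇑p) γ‖)) ^ 2) / δ + (∑ γ ∈ Box n D, ‖K0 γ‖)
      + 2 * ((∑ γ ∈ Box n D, ‖ext (⇑p) γ‖) * (n * D) ^ 3)
      + 4 * (D * ∑ γ ∈ Box n D, ‖ext (⇑p) γ‖)
      + 18 * (((∑ γ ∈ Box n D, ‖K0 γ‖) + ∑ γ ∈ Box n D, ‖K1 γ‖) * (2 * (n * D))) ^ 2 / ε
        ≤ μ * δ / 2 * m)
    (hmM : 12 * ((∑ γ ∈ Box n D, ‖K0 γ‖) + (∑ γ ∈ Box n D, ‖K1 γ‖)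
      + ((∑ γ ∈ Box n D, ‖K0 γ‖) + ∑ γ ∈ Box n D, ‖K1 γ‖) * (2 * (n * D))) ≤ m * (b1 * δ / 4))
    {x θ : Fin n → ℝ} (hx : ∀ j, |x j| ≤ κ) (hs : ∑ j, Real.exp (x j) ^ 2 < (n : ℝ)) :
    0 ≤ (LB D (ext ⇑p) x θ + ww m (pt x θ) / (1 - ww m (pt x θ)) *
        (LB D (ext ⇑p) x θ + conj (LB D (ext ⇑p) (-x) θ) - 2 / m * LB D K0 x θ)
        + 2 / m * LB D K1 x θ * ww m (pt x θ)).re := by
  have hb1 := hc.b1_pos
  obtain ⟨S, hSdef⟩ : ∃ S, S = ∑ γ ∈ Box n D, ‖ext (⇑p) γ‖ := ⟨_, rfl⟩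
  obtain ⟨S0, hS0def⟩ : ∃ S0, S0 = ∑ γ ∈ Box n D, ‖K0 γ‖ := ⟨_, rfl⟩
  obtain ⟨S1, hS1def⟩ : ∃ S1, S1 = ∑ γ ∈ Box n D, ‖K1 γ‖ := ⟨_, rfl⟩
  obtain ⟨L, hL⟩ : ∃ L : ℝ, L = n * D := ⟨_, rfl⟩
  rw [← hSdef, ← hS0def, ← hL] at hms
  rw [← hS0def, ← hS1def, ← hL] at hmM
  rw [← hS1def] at hms
  rw [← hSdef, ← hS0def, ← hS1def] at hc
  obtain ⟨hS, hS0, hS1, hδ, hε, hμ, hμ4, hμk, hκ0, hκ2, hκμ, hκ1, hκL, hκu, hκb, hb1e⟩ := hc
  rw [← hL] at hκL hκu hκb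
  have hL0 : 0 ≤ L := by rw [hL]; positivity
  have hn1 : (1 : ℝ) ≤ n := by exact_mod_cast hn
  have hm1' : (1 : ℝ) ≤ m := by exact_mod_cast hm1
  have hm0 : (0 : ℝ) < m := by linarith
  -- the Euclidean norm of x
  obtain ⟨X, hXdef⟩ : ∃ X, X = Real.sqrt (∑ j, x j ^ 2) := ⟨_, rfl⟩
  have hsum0 : 0 ≤ ∑ j, x j ^ 2 := Finset.sum_nonneg fun j _ => sq_nonneg _
  have hX0 : 0 ≤ X := by rw [hXdef]; exact Real.sqrt_nonneg _
  have hX2 : ∑ j, x j ^ 2 = X ^ 2 := by rw [hXdef, Real.sq_sqrt hsum0]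
  have hxX : ∀ j, |x j| ≤ X := by
    intro j
    rw [hXdef]
    apply Real.le_sqrt_of_sq_le
    rw [sq_abs]
    exact Finset.single_le_sum (f := fun j => x j ^ 2) (fun i _ => sq_nonneg _) (Finset.mem_univ j)
  have hXκ : X ≤ n * κ := by
    rw [hXdef]
    apply Real.sqrt_le_iff.2
    refine ⟨by positivity, ?_⟩
    have h1 : ∀ j ∈ (Finset.univ : Finset (Fin n)), x j ^ 2 ≤ κ ^ 2 := by
      intro j _
      rw [← sq_abs]
      exact pow_le_pow_left₀ (abs_nonneg _) (hx j) 2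
    refine (Finset.sum_le_sum h1).trans ?_
    rw [Finset.sum_const, Finset.card_univ, Fintype.card_fin, nsmul_eq_mul, mul_pow]
    have : (n : ℝ) ≤ n ^ 2 := le_self_pow₀ hn1 two_ne_zero
    gcongr
  have hX1 : X ≤ 1 := hXκ.trans hκ1
  have hLX : n * D * X ≤ 1 := by
    rw [← hL]
    exact (mul_le_mul_of_nonneg_left hXκ hL0).trans hκL
  -- w and t
  obtain ⟨w, hw⟩ : ∃ w, w = ww m (pt x θ) := ⟨_, rfl⟩
  have hnw := norm_ww_pt m x θ
  rw [← hw] at hnw ⊢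
  obtain ⟨t, ht⟩ : ∃ t, t = -(m * ∑ j, x j) := ⟨_, rfl⟩
  have hnw' : ‖w‖ = Real.exp (-t) := by rw [hnw, ht, neg_neg]
  have hcon := constraint hκ2 hx hs
  rw [hX2] at hcon
  have hconm : (1 - κ) * (m * X ^ 2) ≤ t := by
    have := mul_le_mul_of_nonneg_left hcon hm0.le
    rw [ht]
    linarith
  have ht0 : 0 ≤ t := by
    refine le_trans ?_ hconm
    have : 0 ≤ 1 - κ := by linarith
    positivity
  have htpos : 0 < t := by
    rcases ht0.lt_or_eq with h | h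
    · exact h
    · exfalso
      have h1 : ∑ j, x j = 0 := by
        have : m * ∑ j, x j = 0 := by linarith
        rcases mul_eq_zero.1 this with h2 | h2
        · linarith
        · exact h2
      have h2 : ∀ j ∈ (Finset.univ : Finset (Fin n)), 2 * x j + 1 ≤ Real.exp (x j) ^ 2 := by
        intro j _
        rw [← Real.exp_nat_mul]
        push_cast
        exact Real.add_one_le_exp _
      have h3 := Finset.sum_le_sum h2
      rw [Finset.sum_add_distrib, ← Finset.mul_sum, h1] at h3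
      simp only [Finset.sum_const, Finset.card_univ, Fintype.card_fin, nsmul_eq_mul, mul_one,
        mul_zero, zero_add] at h3
      linarith
  have hwlt : ‖w‖ < 1 := by
    rw [hnw', Real.exp_lt_one_iff]
    linarith
  have hb : 1 - ‖w‖ ^ 2 = 1 - Real.exp (-(2 * t)) := by
    rw [hnw', ← Real.exp_nat_mul]
    congr 2
    push_cast
    ring
  -- expansions
  have eP := LB_sub (D := D) (ext ⇑p) (x := x) (θ := θ) hxX hLX
  have ePn := LB_sub (D := D) (ext ⇑p) (x := -x) (θ := θ) (X := X)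
    (fun j => by rw [Pi.neg_apply, abs_neg]; exact hxX j) hLX
  have eK0 := LB_sub (D := D) (⇑K0) (x := x) (θ := θ) hxX hLX
  have eK1 := LB_sub (D := D) (⇑K1) (x := x) (θ := θ) hxX hLX
  have eS := LB_sinh (D := D) (ext ⇑p) (x := x) (θ := θ) hxX hLX
  rw [← gT_box p hD, ← hSdef, ← hL] at eP ePn
  rw [← evT_eq_box K0 hK0D, ← hS0def, ← hL] at eK0
  rw [← evT_eq_box K1 hK1D, ← hS1def, ← hL] at eK1
  rw [← hSdef, ← hL] at eS
  have eS' : ‖LB D (ext ⇑p) x θ - LB D (ext ⇑p) (-x) θ - 2 * ∑ j, (x j : ℂ) * DD p j θ‖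
      ≤ S * (L * X) ^ 3 := by
    have h1 : ∑ j, (x j : ℂ) * DD p j θ
        = ∑ j, (x j : ℂ) * ∑ γ ∈ Box n D, ext (⇑p) γ * (γ j : ℂ) * ch γ θ := by
      refine Finset.sum_congr rfl fun j _ => ?_
      rw [DD_box p hD]
    rw [h1]
    exact eS
  obtain ⟨A, hA⟩ : ∃ A, A = LB D (ext ⇑p) x θ := ⟨_, rfl⟩
  obtain ⟨B, hB⟩ : ∃ B, B = LB D (ext ⇑p) (-x) θ := ⟨_, rfl⟩
  obtain ⟨K0v, hK0v⟩ : ∃ K0v, K0v = LB D (⇑K0) x θ := ⟨_, rfl⟩
  obtain ⟨K1v, hK1v⟩ : ∃ K1v, K1v = LB D (⇑K1) x θ := ⟨_, rfl⟩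
  rw [← hA] at eP
  rw [← hB] at ePn
  rw [← hA, ← hB] at eS'
  rw [← hK0v] at eK0
  rw [← hK1v] at eK1
  rw [← hA, ← hB, ← hK0v, ← hK1v]
  have hevK0 : evT K0 θ = ((evT K0 θ).re : ℂ) := by
    apply Complex.ext
    · simp
    · rw [hK0im θ]; simp
  have hk0 : ‖evT K0 θ‖ ≤ S0 := by
    rw [evT_eq_box K0 hK0D, hS0def]
    refine (norm_sum_le _ _).trans (Finset.sum_le_sum fun γ _ => ?_)
    rw [norm_mul, norm_ch, mul_one]
  have hk1 : ‖evT K1 θ‖ ≤ S1 := by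
    rw [evT_eq_box K1 hK1D, hS1def]
    refine (norm_sum_le _ _).trans (Finset.sum_le_sum fun γ _ => ?_)
    rw [norm_mul, norm_ch, mul_one]
  have hC3 : 0 ≤ (S0 + S1) * (2 * L) := by positivity
  have eK0' : ‖K0v - evT K0 θ‖ ≤ (S0 + S1) * (2 * L) * X := by
    refine eK0.trans ?_
    have : 0 ≤ S1 * (2 * (L * X)) := by positivity
    linarith
  have eK1' : ‖K1v - evT K1 θ‖ ≤ (S0 + S1) * (2 * L) * X := by
    refine eK1.trans ?_
    have : 0 ≤ S0 * (2 * (L * X)) := by positivity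
    linarith
  have hBre : |B.re - (gT p θ).re| ≤ S * (2 * L) * X := by
    rw [← Complex.sub_re]
    refine (Complex.abs_re_le_norm _).trans (ePn.trans (le_of_eq ?_))
    ring
  rcases le_or_gt t (μ / 4) with hcase | hcase
  · -- the region near the torus
    have hbge := one_sub_exp_ge ht0
    rw [← hb] at hbge
    have htle : t ≤ 1 - ‖w‖ ^ 2 := t_le_bound hμ4 ht0 hcase hbge
    have hmX : m * X ^ 2 ≤ (1 + μ) * (1 - ‖w‖ ^ 2) / 2 := by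
      exact mX_bound hμ hμ4 (by positivity) hcase hκμ hconm hbge
    have hAB : ‖A - B - 2 * ((∑ j, (x j : ℂ) * DP p j θ) - ((∑ i, DD p i θ) / n)
        * ((t / m : ℝ) : ℂ))‖ ≤ S * L ^ 3 * X ^ 3 := by
      have h1 : (∑ j, (x j : ℂ) * DP p j θ) - ((∑ i, DD p i θ) / n) * ((t / m : ℝ) : ℂ)
          = ∑ j, (x j : ℂ) * DD p j θ := by
        have h2 : ((t / m : ℝ) : ℂ) = -∑ j, (x j : ℂ) := by
          rw [ht]
          have : -((m : ℝ) * ∑ j, x j) / m = -∑ j, x j := by field_simp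
          rw [this]
          push_cast
          rfl
        rw [h2]
        unfold DP
        simp_rw [mul_sub]
        rw [Finset.sum_sub_distrib, ← Finset.sum_mul]
        ring
      rw [h1]
      refine eS'.trans (le_of_eq ?_)
      ring
    have hN1 : ‖∑ j, DP p j θ ^ 2‖ ≤ n * (2 * (D * S)) ^ 2 := by
      refine (norm_N1_le p θ).trans ?_
      rw [hSdef]
      exact N0_le p hD θ
    have hDm : ‖(∑ i, DD p i θ) / n‖ ≤ D * S := by
      rw [hSdef]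
      exact norm_DDmean_le p hD θ
    have hkmax : ((∑ j, ‖DP p j θ‖ ^ 2) - (w * conj (∑ j, DP p j θ ^ 2)).re) / (4 * (gT p θ).re)
        ≤ n * (2 * (D * S)) ^ 2 / (2 * δ) := by
      have h1 := (num_bounds p θ hwlt.le).2
      have h2 := (num_bounds p θ hwlt.le).1
      have h3 := N0_le p hD θ
      rw [← hSdef] at h3
      unfold N0 N1 at h1 h2
      have h4 : 4 * δ ≤ 4 * (gT p θ).re := by linarith [hu θ]
      calc _ ≤ (2 * N0 p θ) / (4 * δ) := by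
            unfold N0
            gcongr
        _ ≤ (2 * (n * (2 * (D * S)) ^ 2)) / (4 * δ) := by gcongr
        _ = _ := by field_simp; ring
    refine core_pos A B w K0v K1v (evT K1 θ) ((∑ i, DD p i θ) / n) (k0 := (evT K0 θ).re)
      (C1 := S * L ^ 3) (C2 := S * (2 * L)) (C3 := (S0 + S1) * (2 * L)) (M0 := S0)
      (M1 := n * (2 * (D * S)) ^ 2) (M2 := D * S) (u := (gT p θ).re)
      (kmax := n * (2 * (D * S)) ^ 2 / (2 * δ)) x (fun j => DP p j θ)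
      hm1' hX0 hX1 hX2 hwlt hδ (hu θ) hμ hμ4 (by positivity) hC3 hε hAB hBre ?_ eK1'
      ?_ hN1 hDm hmX ht0 htle (hK θ w hwlt.le) hkmax hμk ?_ ?_
    · rw [← hevK0]
      exact eK0'
    · refine (Complex.abs_re_le_norm _).trans hk0
    · refine le_trans ?_ hκu
      gcongr
    · refine le_trans (le_of_eq ?_) hms
      ring
  · -- the region where `‖w‖` is bounded away from `1`
    have hbb : b1 ≤ 1 - ‖w‖ ^ 2 := by
      rw [hb, hb1e]
      have : Real.exp (-(2 * t)) ≤ Real.exp (-(2 * (μ / 4))) := by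
        apply Real.exp_le_exp.2
        linarith
      linarith
    have hABd : ‖A - B‖ ≤ b1 * δ / 8 := by
      have h1 : A - B = (A - gT p θ) - (B - gT p θ) := by ring
      rw [h1]
      refine (norm_sub_le _ _).trans ?_
      have h2 : (4 * S * L) * X ≤ b1 * δ / 8 := by
        refine le_trans ?_ hκb
        gcongr
      linarith
    have hBd : δ / 2 ≤ B.re := by
      have h1 := (abs_le.1 hBre).1
      have h2 : S * (2 * L) * X ≤ μ * δ / 2 := by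
        refine le_trans ?_ hκu
        gcongr
      have h3 := hu θ
      have h4 : μ * δ / 2 ≤ 1 / 4 * δ / 2 := by gcongr
      linarith
    have hK0d : ‖K0v‖ ≤ S0 + S1 + (S0 + S1) * (2 * L) := by
      have h1 : K0v = evT K0 θ + (K0v - evT K0 θ) := by ring
      rw [h1]
      refine (norm_add_le _ _).trans ?_
      have h2 : (S0 + S1) * (2 * L) * X ≤ (S0 + S1) * (2 * L) * 1 := by gcongr
      linarith
    have hK1d : ‖K1v‖ ≤ S0 + S1 + (S0 + S1) * (2 * L) := by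
      have h1 : K1v = evT K1 θ + (K1v - evT K1 θ) := by ring
      rw [h1]
      refine (norm_add_le _ _).trans ?_
      have h2 : (S0 + S1) * (2 * L) * X ≤ (S0 + S1) * (2 * L) * 1 := by gcongr
      linarith
    exact deep_pos A B w K0v K1v hm0 hwlt hδ hb1 hABd hBd hbb hK0d hK1d hmM

end

end Rec

end Pool.Agent.Lib.MP_6ff8d9_an
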