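import Pool.Agent.Lib.MP_6ff8d9_an_h73.Near

/-! The recovery sequence. -/

open Metric Filter Topology

namespace Pool.Agent.Lib.MP_6ff8d9_an

namespace Rec

noncomputable section

open scoped ComplexConjugate

variable {n : ℕ}

/-- choice of the constants -/
lemma exists_consts (n D : ℕ) {S S0 S1 δ ε : ℝ} (hS : 0 ≤ S) (hS0 : 0 ≤ S0) (hS1 : 0 ≤ S1)
    (hδ : 0 < δ) (hε : 0 < ε) : ∃ μ κ b1 : ℝ, Consts n D S S0 S1 δ ε μ κ b1 := by
  obtain ⟨k, hk⟩ : ∃ k : ℝ, k = n * (2 * (D * S)) ^ 2 / (2 * δ) := ⟨_, rfl⟩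
  have hk0 : 0 ≤ k := by rw [hk]; positivity
  obtain ⟨μ, hμ⟩ : ∃ μ : ℝ, μ = min (1 / 4) (ε / (8 * (k + 1))) := ⟨_, rfl⟩
  have hμ0 : 0 < μ := by rw [hμ]; positivity
  have hμ4 : μ ≤ 1 / 4 := by rw [hμ]; exact min_le_left _ _
  have hμk : 4 * μ * k ≤ ε / 2 := by
    have h1 : μ ≤ ε / (8 * (k + 1)) := by rw [hμ]; exact min_le_right _ _
    have h2 : μ * (8 * (k + 1)) ≤ ε := by
      rwa [le_div_iff₀ (by positivity)] at h1
    nlinarith
  obtain ⟨b1, hb1⟩ : ∃ b1 : ℝ, b1 = 1 - Real.exp (-(2 * (μ / 4))) := ⟨_, rfl⟩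
  have hb10 : 0 < b1 := by
    rw [hb1]
    have : Real.exp (-(2 * (μ / 4))) < 1 := by
      rw [Real.exp_lt_one_iff]
      linarith
    linarith
  obtain ⟨c, hc⟩ : ∃ c : ℝ, c = min (min 1 (μ * δ / 2)) (b1 * δ / 8) := ⟨_, rfl⟩
  have hc0 : 0 < c := by rw [hc]; positivity
  have hc1 : c ≤ 1 := by rw [hc]; exact (min_le_left _ _).trans (min_le_left _ _)
  have hc2 : c ≤ μ * δ / 2 := by rw [hc]; exact (min_le_left _ _).trans (min_le_right _ _)
  have hc3 : c ≤ b1 * δ / 8 := by rw [hc]; exact min_le_right _ _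
  obtain ⟨W, hW⟩ : ∃ W : ℝ, W = 1 + n + n * D * n + S * (2 * (n * D)) * n + 4 * S * (n * D) * n :=
    ⟨_, rfl⟩
  have hW0 : 0 < W := by rw [hW]; positivity
  obtain ⟨κ, hκ⟩ : ∃ κ : ℝ, κ = min (μ / 4) (c / W) := ⟨_, rfl⟩
  have hκ0 : 0 < κ := by rw [hκ]; positivity
  have hκμ : κ ≤ μ / 4 := by rw [hκ]; exact min_le_left _ _
  have hκW : ∀ v : ℝ, v ≤ W → v * κ ≤ c := by
    intro v hv
    have h1 : κ ≤ c / W := by rw [hκ]; exact min_le_right _ _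
    have h2 : W * κ ≤ c := by
      rw [le_div_iff₀ hW0] at h1
      linarith
    have h3 : v * κ ≤ W * κ := by gcongr
    linarith
  have p1 : (0 : ℝ) ≤ n := by positivity
  have p2 : (0 : ℝ) ≤ n * D * n := by positivity
  have p3 : 0 ≤ S * (2 * (n * D)) * n := by positivity
  have p4 : 0 ≤ 4 * S * (n * D) * n := by positivity
  refine ⟨μ, κ, b1, hS, hS0, hS1, hδ, hε, hμ0, hμ4, hk ▸ hμk, hκ0, by linarith, hκμ, ?_, ?_, ?_,
    ?_, hb1⟩
  · exact (hκW n (by rw [hW]; linarith)).trans hc1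
  · have := hκW (n * D * n) (by rw [hW]; linarith)
    calc (n : ℝ) * D * (n * κ) = n * D * n * κ := by ring
      _ ≤ c := this
      _ ≤ 1 := hc1
  · have := hκW (S * (2 * (n * D)) * n) (by rw [hW]; linarith)
    calc S * (2 * (n * D)) * (n * κ) = S * (2 * (n * D)) * n * κ := by ring
      _ ≤ c := this
      _ ≤ _ := hc2
  · have := hκW (4 * S * (n * D) * n) (by rw [hW]; linarith)
    calc 4 * S * (n * D) * (n * κ) = 4 * S * (n * D) * n * κ := by ring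
      _ ≤ c := this
      _ ≤ _ := hc3

/-- the coefficients in front of `w / (1 - w)` -/
def aa (p : (Fin n → ℕ) →₀ ℂ) (K0 : (Fin n → ℤ) →₀ ℂ) (m : ℕ) (γ : Fin n → ℤ) : ℂ :=
  ext (⇑p) γ + conj (ext (⇑p) (-γ)) - 2 / m * K0 γ

lemma far_pos (hn : 1 ≤ n) {D : ℕ} (p : (Fin n → ℕ) →₀ ℂ) (K0 K1 : (Fin n → ℤ) →₀ ℂ)
    {δ κ : ℝ} (hδ : 0 < δ) (hκ : 0 < κ)
    (hp : ∀ y ∈ Dn n, δ ≤ (p.sum fun γ c => c * mon γ y).re) :
    ∀ᶠ m : ℕ in atTop, ∀ y ∈ Dn n, (∃ j, κ ≤ |‖y j‖ ^ 2 - 1|) →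
      0 ≤ ((p.sum fun γ c => c * mon γ y) +
        ∑ γ ∈ Box n D, (∏ j, y j ^ (γ j + m).toNat) * (aa p K0 m γ / (1 - ww m y)
          + 2 / m * K1 γ)).re := by
  obtain ⟨q, hq0, hq1, hq⟩ := far_bound n hκ
  obtain ⟨C, hC⟩ : ∃ C : ℝ, C = ∑ γ ∈ Box n D,
    (2 * (‖ext (⇑p) γ‖ + ‖ext (⇑p) (-γ)‖ + 2 * ‖K0 γ‖) + 2 * ‖K1 γ‖) := ⟨_, rfl⟩
  have hC0 : 0 ≤ C := by
    rw [hC]
    exact Finset.sum_nonneg fun γ _ => by positivity
  have t1 : Tendsto (fun m : ℕ => q ^ m) atTop (𝓝 0) :=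
    tendsto_pow_atTop_nhds_zero_of_lt_one hq0 hq1
  have t2 : Tendsto (fun m : ℕ => ((n : ℝ) ^ (2 * D)) ^ n * q ^ (m - D) * C) atTop (𝓝 0) := by
    have h1 : Tendsto (fun m : ℕ => q ^ (m - D)) atTop (𝓝 0) := t1.comp (tendsto_sub_atTop_nat D)
    have h2 := (h1.const_mul (((n : ℝ) ^ (2 * D)) ^ n)).mul_const C
    simpa using h2
  have e1 : ∀ᶠ m : ℕ in atTop, q ^ m < 1 / 2 := t1.eventually_lt_const (by norm_num)
  have e2 : ∀ᶠ m : ℕ in atTop, ((n : ℝ) ^ (2 * D)) ^ n * q ^ (m - D) * C < δ :=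
    t2.eventually_lt_const hδ
  filter_upwards [e1, e2, eventually_ge_atTop (D + 1)] with m hm1 hm2 hmD y hy hj
  have hqy := hq y hy hj
  have hm1' : (1 : ℝ) ≤ m := by
    have : 1 ≤ m := by omega
    exact_mod_cast this
  have hww : ‖ww m y‖ ≤ 1 / 2 := by
    rw [norm_ww]
    refine le_trans ?_ hm1.le
    exact pow_le_pow_left₀ (Finset.prod_nonneg fun j _ => norm_nonneg _) hqy m
  have h1w : 1 / 2 ≤ ‖1 - ww m y‖ := by
    have := norm_sub_norm_le (1 : ℂ) (ww m y)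
    rw [norm_one] at this
    linarith
  have h2m : ‖(2 / m : ℂ)‖ ≤ 2 := by
    rw [norm_div, Complex.norm_natCast, Complex.norm_ofNat, div_le_iff₀ (by linarith)]
    linarith
  have hterm : ∀ γ ∈ Box n D, ‖(∏ j, y j ^ (γ j + m).toNat) * (aa p K0 m γ / (1 - ww m y)
          + 2 / m * K1 γ)‖ ≤ ((n : ℝ) ^ (2 * D)) ^ n * q ^ (m - D) *
          (2 * (‖ext (⇑p) γ‖ + ‖ext (⇑p) (-γ)‖ + 2 * ‖K0 γ‖) + 2 * ‖K1 γ‖) := by
    intro γ hγ
    rw [norm_mul]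
    have h1 := norm_prod_far hn (by omega : D ≤ m) hγ hy hqy
    have h2 : ‖aa p K0 m γ‖ ≤ ‖ext (⇑p) γ‖ + ‖ext (⇑p) (-γ)‖ + 2 * ‖K0 γ‖ := by
      unfold aa
      refine (norm_sub_le _ _).trans (add_le_add ((norm_add_le _ _).trans ?_) ?_)
      · rw [Complex.norm_conj]
      · rw [norm_mul]
        gcongr
    have h3 : ‖aa p K0 m γ / (1 - ww m y) + 2 / m * K1 γ‖
        ≤ 2 * (‖ext (⇑p) γ‖ + ‖ext (⇑p) (-γ)‖ + 2 * ‖K0 γ‖) + 2 * ‖K1 γ‖ := by
      refine (norm_add_le _ _).trans (add_le_add ?_ ?_)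
      · rw [norm_div, div_le_iff₀ (by linarith)]
        have h5 : 0 ≤ ‖ext (⇑p) γ‖ + ‖ext (⇑p) (-γ)‖ + 2 * ‖K0 γ‖ := by positivity
        calc ‖aa p K0 m γ‖ ≤ ‖ext (⇑p) γ‖ + ‖ext (⇑p) (-γ)‖ + 2 * ‖K0 γ‖ := h2
          _ = 2 * (‖ext (⇑p) γ‖ + ‖ext (⇑p) (-γ)‖ + 2 * ‖K0 γ‖) * (1 / 2) := by ring
          _ ≤ _ := by gcongr
      · rw [norm_mul]
        gcongr
    exact mul_le_mul h1 h3 (norm_nonneg _) (by positivity)
  have hsum : ‖∑ γ ∈ Box n D, (∏ j, y j ^ (γ j + m).toNat) * (aa p K0 m γ / (1 - ww m y)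
          + 2 / m * K1 γ)‖ ≤ ((n : ℝ) ^ (2 * D)) ^ n * q ^ (m - D) * C := by
    refine (norm_sum_le _ _).trans ((Finset.sum_le_sum hterm).trans (le_of_eq ?_))
    rw [hC, Finset.mul_sum]
  rw [Complex.add_re]
  have h1 := hp y hy
  have h2 := (abs_le.1 ((Complex.abs_re_le_norm _).trans hsum)).1
  linarith

end

end Rec

open Rec in
/-- T4 -/
theorem recovery {n : ℕ} (hn : 2 ≤ n) (p : (Fin n → ℕ) →₀ ℂ) (h0 : p 0 = 1) {δ : ℝ} (hδ : 0 < δ)
    (hp : ∀ y ∈ Dn n, δ ≤ (p.sum fun γ c => c * mon γ y).re) {ε : ℝ} (hε : 0 < ε) :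
    ∃ (K0 K1 : (Fin n → ℤ) →₀ ℂ) (f : ℕ → (Fin n → ℕ) → ℂ),
      (∀ θ : Fin n → ℝ, (evT K0 θ).im = 0) ∧
      (∀ (θ : Fin n → ℝ) (φ : ℝ), (evT K0 θ).re + 2 * (evT K1 θ * Complex.exp (φ * Complex.I)).re
        ≤ kstar p θ φ + ε) ∧
      (∀ᶠ m in atTop, f m ∈ KB n) ∧
      (∀ D : ℕ, ∀ᶠ m : ℕ in atTop, ∀ γ : Fin n → ℤ, (∀ j, |γ j| ≤ D) →
        ext (f m) γ = ext (⇑p) γ ∧
        ∀ l : ℕ, 1 ≤ l → ext (f m) (γ + fun _ => (l : ℤ) * m) =
          ext (⇑p) γ + (starRingEnd ℂ) (ext (⇑p) (-γ)) - (2 / m) * K0 γ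
            + (if l = 1 then (2 / m) * K1 γ else 0)) := by
  classical
  have hn1 : 1 ≤ n := by omega
  have hu : ∀ θ, δ ≤ (gT p θ).re := gT_ge p hn1 hp
  obtain ⟨K0, K1, hK0im, hKle, hKge⟩ := exists_K p hδ hu hε
  -- a bound for the exponents
  obtain ⟨D, hD, hK0D, hK1D⟩ : ∃ D : ℕ, (∀ γ ∈ p.support, ∀ j, γ j ≤ D) ∧
      K0.support ⊆ Box n D ∧ K1.support ⊆ Box n D := by
    obtain ⟨D1, h1⟩ : ∃ D : ℕ, ∀ γ ∈ p.support, ∀ j, γ j ≤ D := by
      refine ⟨p.support.sup fun γ => Finset.univ.sup γ, fun γ hγ j => ?_⟩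
      exact (Finset.le_sup (f := γ) (Finset.mem_univ j)).trans
        (Finset.le_sup (f := fun γ : Fin n → ℕ => Finset.univ.sup γ) hγ)
    have h2 : ∀ K : (Fin n → ℤ) →₀ ℂ, ∃ D : ℕ, ∀ γ ∈ K.support, ∀ j, (γ j).natAbs ≤ D := by
      intro K
      refine ⟨K.support.sup fun γ => Finset.univ.sup fun j => (γ j).natAbs, fun γ hγ j => ?_⟩
      exact (Finset.le_sup (f := fun j => (γ j).natAbs) (Finset.mem_univ j)).trans
        (Finset.le_sup (f := fun γ : Fin n → ℤ => Finset.univ.sup fun j => (γ j).natAbs) hγ)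
    obtain ⟨D2, h2'⟩ := h2 K0
    obtain ⟨D3, h3'⟩ := h2 K1
    refine ⟨D1 + D2 + D3, fun γ hγ j => (h1 γ hγ j).trans (by omega), fun γ hγ => ?_,
      fun γ hγ => ?_⟩
    · rw [mem_Box]
      intro j
      have := h2' γ hγ j
      rw [Int.abs_eq_natAbs]
      have : (γ j).natAbs ≤ D1 + D2 + D3 := by omega
      exact_mod_cast this
    · rw [mem_Box]
      intro j
      have := h3' γ hγ j
      rw [Int.abs_eq_natAbs]
      have : (γ j).natAbs ≤ D1 + D2 + D3 := by omega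
      exact_mod_cast this
  obtain ⟨μ, κ, b1, hc⟩ := exists_consts n D (S := ∑ γ ∈ Box n D, ‖ext (⇑p) γ‖)
    (S0 := ∑ γ ∈ Box n D, ‖K0 γ‖) (S1 := ∑ γ ∈ Box n D, ‖K1 γ‖) (δ := δ) (ε := ε / 2)
    (Finset.sum_nonneg fun _ _ => norm_nonneg _) (Finset.sum_nonneg fun _ _ => norm_nonneg _)
    (Finset.sum_nonneg fun _ _ => norm_nonneg _) hδ (by positivity)
  have hb1 := hc.b1_pos
  refine ⟨K0, K1, fun m => FF D m p (aa p K0 m) (fun γ => 2 / m * K1 γ), hK0im, hKle, ?_, ?_⟩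
  · -- membership in `KB`
    have hm0 : Tendsto (fun m : ℕ => (m : ℝ)) atTop atTop := tendsto_natCast_atTop_atTop
    have e1 : ∀ᶠ m : ℕ in atTop,
        (n * (2 * (D * ∑ γ ∈ Box n D, ‖ext (⇑p) γ‖)) ^ 2) / δ + (∑ γ ∈ Box n D, ‖K0 γ‖)
        + 2 * ((∑ γ ∈ Box n D, ‖ext (⇑p) γ‖) * (n * D) ^ 3)
        + 4 * (D * ∑ γ ∈ Box n D, ‖ext (⇑p) γ‖)
        + 18 * (((∑ γ ∈ Box n D, ‖K0 γ‖) + ∑ γ ∈ Box n D, ‖K1 γ‖) * (2 * (n * D))) ^ 2 / (ε / 2)
          ≤ μ * δ / 2 * m := by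
      have hμ := hc.hμ
      exact (hm0.const_mul_atTop (by positivity : 0 < μ * δ / 2)).eventually_ge_atTop _
    have e2 : ∀ᶠ m : ℕ in atTop, 12 * ((∑ γ ∈ Box n D, ‖K0 γ‖) + (∑ γ ∈ Box n D, ‖K1 γ‖)
      + ((∑ γ ∈ Box n D, ‖K0 γ‖) + ∑ γ ∈ Box n D, ‖K1 γ‖) * (2 * (n * D)))
        ≤ m * (b1 * δ / 4) :=
      (hm0.atTop_mul_const (by positivity : 0 < b1 * δ / 4)).eventually_ge_atTop _
    filter_upwards [e1, e2, far_pos hn1 (D := D) p K0 K1 hδ hc.hκ0 hp,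
      eventually_ge_atTop (D + 1)] with m h1 h2 hfar hmD
    have hDm : D < m := by omega
    refine ⟨?_, fun y hy => ?_⟩
    · -- value at zero
      have h3 := (ext_FF hn1 (D' := 0) (by omega : D + 0 < m) p hD (aa p K0 m)
        (fun γ => 2 / m * K1 γ) ?_ ?_ (γ := 0) (by simp)).1
      · have h4 : ext (FF D m p (aa p K0 m) (fun γ => 2 / m * K1 γ)) 0
            = FF D m p (aa p K0 m) (fun γ => 2 / m * K1 γ) 0 := by
          unfold ext
          simp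
          rfl
        have h5 : ext (⇑p) (0 : Fin n → ℤ) = p 0 := by
          unfold ext
          simp
          rfl
        rw [← h4, h3, h5, h0]
      · intro γ hγ
        unfold aa
        have hγ' : -γ ∉ Box n D := by
          rw [mem_Box] at hγ ⊢
          simpa using hγ
        have hext : ∀ γ : Fin n → ℤ, γ ∉ Box n D → ext (⇑p) γ = 0 := by
          intro γ hγ
          unfold ext
          split_ifs with h
          · rw [← Finsupp.notMem_support_iff]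
            intro hs
            apply hγ
            rw [mem_Box]
            intro j
            have := hD _ hs j
            rw [abs_of_nonneg (h j)]
            omega
          · rfl
        rw [hext γ hγ, hext _ hγ', Finsupp.notMem_support_iff.1 fun h => hγ (hK0D h)]
        simp
      · intro γ hγ
        rw [Finsupp.notMem_support_iff.1 fun h => hγ (hK1D h), mul_zero]
    · have hsum := hasSum_FF hn1 hDm p (aa p K0 m) (fun γ => 2 / m * K1 γ) hy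
      refine ⟨hsum.summable, ?_⟩
      unfold fn
      rw [hsum.tsum_eq]
      by_cases hj : ∃ j, κ ≤ |‖y j‖ ^ 2 - 1|
      · exact hfar y hy hj
      · push Not at hj
        obtain ⟨x, θ, rfl, hx, hexp⟩ := exists_polar hc.hκ2 (fun j => (hj j).le)
        have hs : ∑ j, Real.exp (x j) ^ 2 < (n : ℝ) := by
          have h3 : ∑ j, ‖pt x θ j‖ ^ 2 < (n : ℝ) := hy
          simp_rw [hexp] at h3
          exact h3
        have h3 := value_near hDm p hD (⇑K0) (⇑K1) x θ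
        unfold aa
        rw [h3]
        exact near_pos hn1 p hD K0 K1 hK0D hK1D hc hu hK0im hKge (by omega) h1 h2 hx hs
  · intro D'
    filter_upwards [eventually_gt_atTop (D + D')] with m hm γ hγ
    have hext : ∀ γ : Fin n → ℤ, γ ∉ Box n D → ext (⇑p) γ = 0 := by
      intro γ hγ
      unfold ext
      split_ifs with h
      · rw [← Finsupp.notMem_support_iff]
        intro hs
        apply hγ
        rw [mem_Box]
        intro j
        have := hD _ hs j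
        rw [abs_of_nonneg (h j)]
        omega
      · rfl
    have h3 := ext_FF hn1 (D' := D') (by omega : D + D' < m) p hD (aa p K0 m)
        (fun γ => 2 / m * K1 γ) ?_ ?_ hγ
    · refine ⟨h3.1, fun l hl => ?_⟩
      obtain ⟨l', rfl⟩ : ∃ l', l = l' + 1 := ⟨l - 1, by omega⟩
      rw [h3.2 l']
      unfold aa
      congr 1
      by_cases hl0 : l' = 0
      · simp [hl0]
      · rw [if_neg hl0, if_neg (by omega)]
    · intro γ hγ
      unfold aa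
      have hγ' : -γ ∉ Box n D := by
        rw [mem_Box] at hγ ⊢
        simpa using hγ
      rw [hext γ hγ, hext _ hγ', Finsupp.notMem_support_iff.1 fun h => hγ (hK0D h)]
      simp
    · intro γ hγ
      rw [Finsupp.notMem_support_iff.1 fun h => hγ (hK1D h), mul_zero]

end Pool.Agent.Lib.MP_6ff8d9_an
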