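import Pool.Agent.Lib.MP_6ff8d9_an_h73.Laurent

/-! The recovery sequence: coefficients and values. -/

open Metric Filter Topology

namespace Pool.Agent.Lib.MP_6ff8d9_an

namespace Rec

noncomputable section

open scoped ComplexConjugate

variable {n : ℕ}

/-- exponents `γ + (l+1) m 1` -/
def ee (m : ℕ) (γ : Fin n → ℤ) (l : ℕ) : Fin n → ℕ := fun j => (γ j + ((l : ℤ) + 1) * m).toNat

/-- the sequence `f_m` -/
def FF (D m : ℕ) (p : (Fin n → ℕ) →₀ ℂ) (a b : (Fin n → ℤ) → ℂ) : (Fin n → ℕ) → ℂ :=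
  fun γ' => p γ' + ∑ γ ∈ Box n D,
    Function.extend (ee m γ) (fun l => a γ + if l = 0 then b γ else 0) 0 γ'

lemma ee_cast {m : ℕ} {γ : Fin n → ℤ} {D : ℕ} (hγ : γ ∈ Box n D) (hD : D < m) (l : ℕ) (j : Fin n) :
    ((ee m γ l j : ℕ) : ℤ) = γ j + ((l : ℤ) + 1) * m := by
  unfold ee
  apply Int.toNat_of_nonneg
  have h1 := (abs_le.1 (mem_Box.1 hγ j)).1
  have h2 : (m : ℤ) ≤ ((l : ℤ) + 1) * m := by nlinarith [Int.natCast_nonneg l, Int.natCast_nonneg m]
  have h3 : (D : ℤ) < m := by exact_mod_cast hD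
  linarith

lemma ee_inj (hn : 1 ≤ n) {m : ℕ} {γ : Fin n → ℤ} {D : ℕ} (hγ : γ ∈ Box n D) (hD : D < m) :
    Function.Injective (ee m γ) := by
  intro l l' h
  have h1 := ee_cast hγ hD l ⟨0, hn⟩
  have h2 := ee_cast hγ hD l' ⟨0, hn⟩
  rw [h, h2] at h1
  have h3 : ((l : ℤ) + 1) * m = ((l' : ℤ) + 1) * m := by linarith
  have hm : (m : ℤ) ≠ 0 := by
    have : 0 < m := by omega
    exact_mod_cast this.ne'
  have := mul_right_cancel₀ hm h3
  have : (l : ℤ) = l' := by linarith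
  exact_mod_cast this

/-- the radial product -/
lemma prod_sq_le {y : Fin n → ℂ} : ∏ j, ‖y j‖ ^ 2 ≤ Real.exp (∑ j, ‖y j‖ ^ 2 - n) := by
  have h1 : ∏ j, ‖y j‖ ^ 2 ≤ ∏ j, Real.exp (‖y j‖ ^ 2 - 1) := by
    refine Finset.prod_le_prod (fun j _ => by positivity) fun j _ => ?_
    have := Real.add_one_le_exp (‖y j‖ ^ 2 - 1)
    linarith
  refine h1.trans ?_
  rw [← Real.exp_sum]
  apply Real.exp_le_exp.2
  rw [Finset.sum_sub_distrib]
  simp

lemma prod_lt_one {y : Fin n → ℂ} (hy : y ∈ Dn n) : ∏ j, ‖y j‖ < 1 := by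
  have h1 := prod_sq_le (y := y)
  rw [Finset.prod_pow] at h1
  have h2 : Real.exp (∑ j, ‖y j‖ ^ 2 - n) < 1 := by
    rw [Real.exp_lt_one_iff]
    have : ∑ j, ‖y j‖ ^ 2 < (n : ℝ) := hy
    linarith
  have h3 : 0 ≤ ∏ j, ‖y j‖ := Finset.prod_nonneg fun j _ => norm_nonneg _
  nlinarith

/-- `w = ∏ y_j ^ m` -/
def ww (m : ℕ) (y : Fin n → ℂ) : ℂ := ∏ j, y j ^ m

lemma norm_ww (m : ℕ) (y : Fin n → ℂ) : ‖ww m y‖ = (∏ j, ‖y j‖) ^ m := by
  unfold ww
  rw [norm_prod, ← Finset.prod_pow]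
  simp

lemma norm_ww_lt {m : ℕ} (hm : 0 < m) {y : Fin n → ℂ} (hy : y ∈ Dn n) : ‖ww m y‖ < 1 := by
  rw [norm_ww]
  exact pow_lt_one₀ (Finset.prod_nonneg fun j _ => norm_nonneg _) (prod_lt_one hy) hm.ne'

lemma mon_ee {m : ℕ} {γ : Fin n → ℤ} {D : ℕ} (hγ : γ ∈ Box n D) (hD : D < m) (l : ℕ)
    (y : Fin n → ℂ) :
    mon (ee m γ l) y = (∏ j, y j ^ (γ j + m).toNat) * ww m y ^ l := by
  unfold mon ww
  rw [← Finset.prod_pow, ← Finset.prod_mul_distrib]
  refine Finset.prod_congr rfl fun j _ => ?_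
  rw [← pow_mul, ← pow_add]
  congr 1
  have h1 := ee_cast hγ hD l j
  have h2 : (((γ j + m).toNat : ℕ) : ℤ) = γ j + m := by
    apply Int.toNat_of_nonneg
    have h1 := (abs_le.1 (mem_Box.1 hγ j)).1
    have h3 : (D : ℤ) < m := by exact_mod_cast hD
    linarith
  have : ((ee m γ l j : ℕ) : ℤ) = (((γ j + m).toNat + m * l : ℕ) : ℤ) := by
    push_cast
    rw [h1, h2]
    ring
  exact_mod_cast this

lemma hasSum_FF (hn : 1 ≤ n) {D m : ℕ} (hD : D < m) (p : (Fin n → ℕ) →₀ ℂ)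
    (a b : (Fin n → ℤ) → ℂ) {y : Fin n → ℂ} (hy : y ∈ Dn n) :
    HasSum (fun γ' => FF D m p a b γ' * mon γ' y)
      ((p.sum fun γ c => c * mon γ y) +
        ∑ γ ∈ Box n D, (∏ j, y j ^ (γ j + m).toNat) * (a γ / (1 - ww m y) + b γ)) := by
  have hm : 0 < m := by omega
  have hw := norm_ww_lt hm hy
  unfold FF
  simp_rw [add_mul, Finset.sum_mul]
  refine HasSum.add ?_ (hasSum_sum fun γ hγ => ?_)
  · unfold Finsupp.sum
    apply hasSum_sum_of_ne_finset_zero
    intro γ hγ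
    rw [Finsupp.notMem_support_iff.1 hγ, zero_mul]
  · have h1 : (fun γ' => Function.extend (ee m γ) (fun l => a γ + if l = 0 then b γ else 0) 0 γ'
        * mon γ' y) = Function.extend (ee m γ)
          (fun l => (a γ + if l = 0 then b γ else 0) * mon (ee m γ l) y) 0 := by
      funext γ'
      by_cases h : ∃ l, ee m γ l = γ'
      · obtain ⟨l, rfl⟩ := h
        rw [(ee_inj hn hγ hD).extend_apply, (ee_inj hn hγ hD).extend_apply]
      · rw [Function.extend_apply' _ _ _ h, Function.extend_apply' _ _ _ h]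
        simp
    rw [h1, hasSum_extend_zero (ee_inj hn hγ hD)]
    simp_rw [mon_ee hγ hD]
    have h2 : HasSum (fun l : ℕ => a γ * ww m y ^ l) (a γ * (1 - ww m y)⁻¹) :=
      (hasSum_geometric_of_norm_lt_one hw).mul_left _
    have h3 : HasSum (fun l : ℕ => if l = 0 then b γ else 0) (b γ) := hasSum_ite_eq 0 (b γ)
    have h4 := (h2.add h3).mul_left (∏ j, y j ^ (γ j + m).toNat)
    have h5 : (∏ j, y j ^ (γ j + m).toNat) * (a γ / (1 - ww m y) + b γ)
        = (∏ j, y j ^ (γ j + m).toNat) * (a γ * (1 - ww m y)⁻¹ + b γ) := by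
      rw [div_eq_mul_inv]
    rw [h5]
    refine h4.congr_fun ?_
    intro l
    by_cases hl : l = 0
    · subst hl
      simp
      ring
    · simp [hl]
      ring

lemma ext_FF (hn : 1 ≤ n) {D m D' : ℕ} (hD : D + D' < m) (p : (Fin n → ℕ) →₀ ℂ)
    (hp : ∀ γ ∈ p.support, ∀ j, γ j ≤ D)
    (a b : (Fin n → ℤ) → ℂ) (ha : ∀ γ, γ ∉ Box n D → a γ = 0) (hb : ∀ γ, γ ∉ Box n D → b γ = 0)
    {γ : Fin n → ℤ} (hγ : ∀ j, |γ j| ≤ D') :
    ext (FF D m p a b) γ = ext (⇑p) γ ∧
      ∀ l : ℕ, ext (FF D m p a b) (γ + fun _ => ((l + 1 : ℕ) : ℤ) * m) =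
        a γ + if l = 0 then b γ else 0 := by
  classical
  have hDm : D < m := by omega
  have hDZ : (D : ℤ) + D' < m := by exact_mod_cast hD
  constructor
  · unfold ext
    split_ifs with h
    · unfold FF
      rw [Finset.sum_eq_zero, add_zero]
      intro γ' hγ'
      rw [Function.extend_apply']
      · rfl
      · rintro ⟨l, hl⟩
        have h1 := ee_cast hγ' hDm l ⟨0, hn⟩
        rw [hl] at h1
        rw [Int.toNat_of_nonneg (h _)] at h1
        have h2 := (abs_le.1 (mem_Box.1 hγ' ⟨0, hn⟩)).1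
        have h3 := (abs_le.1 (hγ ⟨0, hn⟩)).2
        have h4 : (m : ℤ) ≤ ((l : ℤ) + 1) * m := by
          nlinarith [Int.natCast_nonneg l, Int.natCast_nonneg m]
        linarith
    · rfl
  · intro l
    obtain ⟨g, hg⟩ : ∃ g : Fin n → ℤ, g = γ + fun _ => ((l + 1 : ℕ) : ℤ) * m := ⟨_, rfl⟩
    have hgj : ∀ j, g j = γ j + ((l : ℤ) + 1) * m := by
      intro j
      rw [hg]
      simp only [Pi.add_apply]
      push_cast
      ring
    rw [← hg]
    have hnn : ∀ j, (D : ℤ) < g j := by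
      intro j
      rw [hgj]
      have h3 := (abs_le.1 (hγ j)).1
      have h4 : (m : ℤ) ≤ ((l : ℤ) + 1) * m := by
        nlinarith [Int.natCast_nonneg l, Int.natCast_nonneg m]
      linarith
    have hnn0 : ∀ j, 0 ≤ g j := fun j => (Int.natCast_nonneg D).trans (hnn j).le
    unfold ext
    rw [if_pos hnn0]
    unfold FF
    have hp0 : p (fun j => (g j).toNat) = 0 := by
      rw [← Finsupp.notMem_support_iff]
      intro h
      have h1 := hp _ h ⟨0, hn⟩
      have h2 := hnn ⟨0, hn⟩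
      have h3 : (((g ⟨0, hn⟩).toNat : ℕ) : ℤ) ≤ D := by
        exact_mod_cast h1
      rw [Int.toNat_of_nonneg (hnn0 _)] at h3
      linarith
    rw [hp0, zero_add]
    have key : ∀ γ' ∈ Box n D, ∀ l', ee m γ' l' = (fun j => (g j).toNat) → γ' = γ ∧ l' = l := by
      intro γ' hγ' l' h
      have h1 : ∀ j, γ' j + ((l' : ℤ) + 1) * m = γ j + ((l : ℤ) + 1) * m := by
        intro j
        rw [← ee_cast hγ' hDm l' j, h, Int.toNat_of_nonneg (hnn0 j), hgj]
      have h2 : l' = l := by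
        have h3 := h1 ⟨0, hn⟩
        have h4 := abs_le.1 (mem_Box.1 hγ' ⟨0, hn⟩)
        have h5 := abs_le.1 (hγ ⟨0, hn⟩)
        have h6 : (((l' : ℤ) - l) * m) = γ ⟨0, hn⟩ - γ' ⟨0, hn⟩ := by linarith
        have h7 : |((l' : ℤ) - l) * m| < m := by
          rw [h6, abs_lt]
          constructor <;> linarith [h4.1, h4.2, h5.1, h5.2]
        rw [abs_mul, Nat.abs_cast] at h7
        have hm0 : (0 : ℤ) < m := by
          have : 0 < m := by omega
          exact_mod_cast this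
        have h8 : |(l' : ℤ) - l| < 1 := by
          by_contra hc
          push Not at hc
          nlinarith
        have h9 : (l' : ℤ) - l = 0 := by
          rw [abs_lt] at h8
          omega
        omega
      refine ⟨?_, h2⟩
      funext j
      have h3 := h1 j
      rw [h2] at h3
      linarith
    by_cases hmem : γ ∈ Box n D
    · rw [Finset.sum_eq_single γ]
      · have h1 : (fun j => (g j).toNat) = ee m γ l := by
          funext j
          unfold ee
          rw [hgj]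
        rw [h1, (ee_inj hn hmem hDm).extend_apply]
      · intro γ' hγ' hne
        rw [Function.extend_apply']
        · rfl
        · rintro ⟨l', hl'⟩
          exact hne (key γ' hγ' l' hl').1
      · intro h
        exact absurd hmem h
    · rw [ha γ hmem, hb γ hmem]
      rw [Finset.sum_eq_zero]
      · simp
      · intro γ' hγ'
        rw [Function.extend_apply']
        · rfl
        · rintro ⟨l', hl'⟩
          have := (key γ' hγ' l' hl').1
          rw [this] at hγ'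
          exact hmem hγ'

end

end Rec

end Pool.Agent.Lib.MP_6ff8d9_an
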